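import Pool.Agent.Lib_MP_17e2c6_gt.Planar

open scoped RealInnerProductSpace
open Set MeasureTheory

namespace Pool.Agent.Lib_MP_17e2c6_gt

abbrev E2 : Type := EuclideanSpace ℝ (Fin 2)

noncomputable def Jlin (i j : Fin 5) : E2 →ₗ[ℝ] E5 where
  toFun p := p 0 • e5 i + p 1 • e5 j
  map_add' p q := by
    simp only [PiLp.add_apply]
    module
  map_smul' c p := by
    simp only [PiLp.smul_apply, smul_eq_mul, RingHom.id_apply]
    module

lemma e5_inner (i j : Fin 5) : ⟪e5 i, e5 j⟫ = if i = j then 1 else 0 := by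
  rw [inner5]
  fin_cases i <;> fin_cases j <;> simp [e5_apply]

lemma inner_e5 (z : E5) (i : Fin 5) : ⟪z, e5 i⟫ = z i := by
  rw [inner5]
  fin_cases i <;> simp [e5_apply]

lemma normsq2 (p : E2) : ‖p‖ ^ 2 = p 0 ^ 2 + p 1 ^ 2 := by
  rw [EuclideanSpace.real_norm_sq_eq, Fin.sum_univ_two]

noncomputable def Jiso (i j : Fin 5) (hij : i ≠ j) : E2 →ₗᵢ[ℝ] E5 where
  toLinearMap := Jlin i j
  norm_map' p := by
    have h1 : ‖Jlin i j p‖ ^ 2 = ‖p‖ ^ 2 := by
      rw [← real_inner_self_eq_norm_sq, normsq2]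
      change ⟪p 0 • e5 i + p 1 • e5 j, p 0 • e5 i + p 1 • e5 j⟫ = _
      simp only [inner_add_left, inner_add_right, inner_smul_left, inner_smul_right, e5_inner,
        conj_trivial, hij, hij.symm, if_true, if_false]
      ring
    exact (pow_left_inj₀ (norm_nonneg _) (norm_nonneg _) two_ne_zero).1 h1

/-- coordinate plane -/
noncomputable def Spl (i j : Fin 5) (hij : i ≠ j) : Submodule ℝ E5 :=
  LinearMap.range (Jiso i j hij).toLinearMap

noncomputable def eqv (i j : Fin 5) (hij : i ≠ j) : E2 ≃ₗᵢ[ℝ] Spl i j hij :=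
  (Jiso i j hij).equivRange

lemma finrank_Spl (i j : Fin 5) (hij : i ≠ j) : Module.finrank ℝ (Spl i j hij) = 2 := by
  rw [← (eqv i j hij).toLinearEquiv.finrank_eq]
  simp

/-- the two coordinates -/
noncomputable def prj (i j : Fin 5) (z : E5) : E2 := WithLp.toLp 2 ![z i, z j]

lemma eqv_symm (i j : Fin 5) (hij : i ≠ j) (z : E5) :
    (eqv i j hij).symm ((Spl i j hij).orthogonalProjectionOnto z) = prj i j z := by
  apply ext_inner_right ℝ
  intro q
  have h1 : ⟪(eqv i j hij).symm ((Spl i j hij).orthogonalProjectionOnto z), q⟫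
      = ⟪(Spl i j hij).orthogonalProjectionOnto z, eqv i j hij q⟫ := by
    rw [← (eqv i j hij).inner_map_map, (eqv i j hij).apply_symm_apply]
  rw [h1, Submodule.inner_orthogonalProjectionOnto_eq_of_mem_right]
  have h2 : ((eqv i j hij q : Spl i j hij) : E5) = q 0 • e5 i + q 1 • e5 j := rfl
  rw [h2, inner_add_right, inner_smul_right, inner_smul_right, inner_e5, inner_e5]
  simp [prj, PiLp.inner_apply, Fin.sum_univ_two]

lemma vol_plane (i j : Fin 5) (hij : i ≠ j) (K : Set E5) :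
    volume ((Spl i j hij).orthogonalProjectionOnto '' K) = volume (prj i j '' K) := by
  have h := (eqv i j hij).measurePreserving.measure_preimage_emb
    (eqv i j hij).toHomeomorph.measurableEmbedding
    ((Spl i j hij).orthogonalProjectionOnto '' K)
  rw [← h]
  congr 1
  ext p
  constructor
  · rintro ⟨z, hz, hp⟩
    refine ⟨z, hz, ?_⟩
    rw [← eqv_symm i j hij, hp, LinearIsometryEquiv.symm_apply_apply]
  · rintro ⟨z, hz, rfl⟩
    refine ⟨z, hz, ?_⟩
    rw [← eqv_symm i j hij, LinearIsometryEquiv.apply_symm_apply]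

noncomputable def chi : E2 ≃ᵐ ℝ × ℝ :=
  (MeasurableEquiv.toLp 2 (Fin 2 → ℝ)).symm.trans MeasurableEquiv.finTwoArrow

lemma chi_apply (p : E2) : chi p = (p 0, p 1) := rfl

lemma chi_mp : MeasurePreserving chi (volume : Measure E2) (volume : Measure (ℝ × ℝ)) :=
  (EuclideanSpace.volume_preserving_symm_measurableEquiv_toLp (Fin 2)).trans
    (volume_preserving_finTwoArrow ℝ)

lemma vol_chi (Q : Set E2) : volume Q = volume (chi '' Q) := by
  rw [← chi_mp.measure_preimage_equiv, Set.preimage_image_eq _ chi.injective]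

section
variable {g a v : ℝ → ℝ} {m : ℝ} (hP : IsProfile g a v m)
include hP

/-- unit vectors of the first plane -/
noncomputable def nvec (θ : ℝ) : E5 := WithLp.toLp 2 ![Real.cos θ, Real.sin θ, 0, 0, 0]

omit hP in
lemma nvec_norm (θ : ℝ) : ‖nvec θ‖ = 1 := by
  have h1 : ‖nvec θ‖ ^ 2 = 1 := by
    rw [normsq5]
    simp [nvec]
  have h2 : ‖nvec θ‖ ^ 2 = 1 ^ 2 := by rw [h1]; norm_num
  exact (pow_left_inj₀ (norm_nonneg _) zero_le_one two_ne_zero).1 h2

omit hP in
lemma nvec_F3 (θ : ℝ) : F3 (nvec θ) = Real.cos (3 * θ) := by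
  unfold F3
  rw [inner5]
  simp only [cm_0, cm_1, cm_2, cm_3, cm_4]
  simp [nvec]
  rw [Real.cos_three_mul]
  have := Real.sin_sq_add_cos_sq θ
  linear_combination (-3 * Real.cos θ) * this

omit hP in
lemma hh_nvec (θ : ℝ) : hh g (nvec θ) = rho g θ := by
  unfold hh yy rho
  rw [nvec_norm, nvec_F3]
  simp

omit hP in
lemma prj_support {z : E5} (hz : z ∈ body (hh g)) (θ : ℝ) :
    z 0 * Real.cos θ + z 1 * Real.sin θ ≤ rho g θ := by
  have h1 := hz (nvec θ)
  rw [hh_nvec, inner5] at h1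
  simpa [nvec] using h1

lemma area_plane01 :
    volume ((Spl 0 1 (by decide)).orthogonalProjectionOnto '' body (hh g))
      < ENNReal.ofReal Real.pi := by
  rw [vol_plane, vol_chi]
  refine lt_of_le_of_lt (area_le hP ?_) ?_
  · rintro p ⟨q, ⟨z, hz, rfl⟩, rfl⟩ θ
    rw [chi_apply]
    simpa [prj] using prj_support hz θ
  · exact (ENNReal.ofReal_lt_ofReal_iff Real.pi_pos).2 (integral_lt hP)

lemma ball_sub_plane23 :
    Metric.closedBall (0 : E2) 1 ⊆ prj 2 3 '' body (hh g) := by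
  intro q hq
  rw [mem_closedBall_zero_iff] at hq
  have hzero : (0 : E5) ∈ body (hh g) := by
    intro x
    rw [inner_zero_left]
    exact (smooth_hh hP).nonneg x
  by_cases hq0 : q = 0
  · refine ⟨0, hzero, ?_⟩
    rw [hq0]
    ext i
    fin_cases i <;> simp [prj]
  · have hqn : ‖q‖ ≠ 0 := norm_ne_zero_iff.2 hq0
    set x : E5 := WithLp.toLp 2 ![0, 0, q 0 / ‖q‖, q 1 / ‖q‖, 0] with hx
    have hqsq : ‖q‖ ^ 2 = q 0 ^ 2 + q 1 ^ 2 := normsq2 q
    have x0 : x 0 = 0 := rfl
    have x1 : x 1 = 0 := rfl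
    have x2 : x 2 = q 0 / ‖q‖ := rfl
    have x3 : x 3 = q 1 / ‖q‖ := rfl
    have x4 : x 4 = 0 := rfl
    have hxn : ‖x‖ = 1 := by
      have h1 : ‖x‖ ^ 2 = 1 ^ 2 := by
        rw [normsq5, x0, x1, x2, x3, x4]
        field_simp
        rw [hqsq]
        ring
      exact (pow_left_inj₀ (norm_nonneg _) zero_le_one two_ne_zero).1 h1
    have hxne : x ≠ 0 := by
      intro h0
      rw [h0, norm_zero] at hxn
      norm_num at hxn
    have hF : F3 x = 0 := by
      unfold F3
      rw [inner5]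
      simp only [cm_0, cm_1, cm_2, cm_3, cm_4, x0, x1, x4]
      ring
    have hyy : yy x = 0 := by unfold yy; rw [hF]; simp
    have hphi : phi g 0 = 1 := by unfold phi; rw [hP.g_zero]; ring
    have hmem := (smooth_hh hP).G_mem hxne
    have hconv := body_convex (hh g) hzero hmem (a := 1 - ‖q‖) (b := ‖q‖) (by linarith)
      (norm_nonneg _) (by ring)
    refine ⟨_, hconv, ?_⟩
    have hG2 : GG g a x 2 = q 0 / ‖q‖ := by
      unfold GG Yv
      rw [hyy, hphi, hF, hxn]
      simp only [PiLp.add_apply, PiLp.smul_apply, PiLp.sub_apply, smul_eq_mul, cm_2, x0, x1, x4, x2]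
      ring
    have hG3 : GG g a x 3 = q 1 / ‖q‖ := by
      unfold GG Yv
      rw [hyy, hphi, hF, hxn]
      simp only [PiLp.add_apply, PiLp.smul_apply, PiLp.sub_apply, smul_eq_mul, cm_3, x0, x1, x4, x3]
      ring
    ext i
    fin_cases i
    · simp [prj, hG2]
      field_simp
    · simp [prj, hG3]
      field_simp

lemma area_plane23 :
    ENNReal.ofReal Real.pi ≤
      volume ((Spl 2 3 (by decide)).orthogonalProjectionOnto '' body (hh g)) := by
  rw [vol_plane]
  refine le_trans ?_ (measure_mono (ball_sub_plane23 hP))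
  rw [EuclideanSpace.volume_closedBall_fin_two]
  simp

end

end Pool.Agent.Lib_MP_17e2c6_gt
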