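import Mathlib

open scoped RealInnerProductSpace

namespace Pool.Agent.Lib_MP_17e2c6_gt

/-- Five-dimensional Euclidean space. -/
abbrev E5 : Type := EuclideanSpace ℝ (Fin 5)

/-- The symmetric product on `ℝ⁵` (one sixth of the second derivative of Cartan's cubic). -/
noncomputable def cm (x y : E5) : E5 :=
  WithLp.toLp 2 ![
    x 0 * y 0 + (1 / 2) * (x 2 * y 2 + x 3 * y 3 - 2 * (x 4 * y 4) - 2 * (x 1 * y 1)),
    -(x 0 * y 1 + x 1 * y 0) + (√3 / 2) * (x 2 * y 2 - x 3 * y 3),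
    (1 / 2) * (x 0 * y 2 + x 2 * y 0) + (√3 / 2) * (x 1 * y 2 + x 2 * y 1)
      + (√3 / 2) * (x 3 * y 4 + x 4 * y 3),
    (1 / 2) * (x 0 * y 3 + x 3 * y 0) - (√3 / 2) * (x 1 * y 3 + x 3 * y 1)
      + (√3 / 2) * (x 2 * y 4 + x 4 * y 2),
    -(x 0 * y 4 + x 4 * y 0) + (√3 / 2) * (x 2 * y 3 + x 3 * y 2)]

lemma cm_0 (x y : E5) : cm x y 0 =
    x 0 * y 0 + (1 / 2) * (x 2 * y 2 + x 3 * y 3 - 2 * (x 4 * y 4) - 2 * (x 1 * y 1)) := rfl
lemma cm_1 (x y : E5) : cm x y 1 =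
    -(x 0 * y 1 + x 1 * y 0) + (√3 / 2) * (x 2 * y 2 - x 3 * y 3) := rfl
lemma cm_2 (x y : E5) : cm x y 2 =
    (1 / 2) * (x 0 * y 2 + x 2 * y 0) + (√3 / 2) * (x 1 * y 2 + x 2 * y 1)
      + (√3 / 2) * (x 3 * y 4 + x 4 * y 3) := rfl
lemma cm_3 (x y : E5) : cm x y 3 =
    (1 / 2) * (x 0 * y 3 + x 3 * y 0) - (√3 / 2) * (x 1 * y 3 + x 3 * y 1)
      + (√3 / 2) * (x 2 * y 4 + x 4 * y 2) := rfl
lemma cm_4 (x y : E5) : cm x y 4 =
    -(x 0 * y 4 + x 4 * y 0) + (√3 / 2) * (x 2 * y 3 + x 3 * y 2) := rfl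

lemma ext5 {x y : E5} (h0 : x 0 = y 0) (h1 : x 1 = y 1) (h2 : x 2 = y 2) (h3 : x 3 = y 3)
    (h4 : x 4 = y 4) : x = y := by
  ext i
  fin_cases i
  · exact h0
  · exact h1
  · exact h2
  · exact h3
  · exact h4

lemma inner5 (x y : E5) : ⟪x, y⟫ = x 0 * y 0 + x 1 * y 1 + x 2 * y 2 + x 3 * y 3 + x 4 * y 4 := by
  simp [PiLp.inner_apply, Fin.sum_univ_five]
  ring

lemma normsq5 (x : E5) : ‖x‖ ^ 2 = x 0 ^ 2 + x 1 ^ 2 + x 2 ^ 2 + x 3 ^ 2 + x 4 ^ 2 := by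
  rw [← real_inner_self_eq_norm_sq, inner5]; ring

lemma cm_add_left (x x' y : E5) : cm (x + x') y = cm x y + cm x' y := by
  apply ext5 <;> simp only [PiLp.add_apply, cm_0, cm_1, cm_2, cm_3, cm_4] <;> ring

lemma cm_smul_left (c : ℝ) (x y : E5) : cm (c • x) y = c • cm x y := by
  apply ext5 <;> simp only [PiLp.smul_apply, smul_eq_mul, cm_0, cm_1, cm_2, cm_3, cm_4] <;> ring

lemma cm_comm (x y : E5) : cm x y = cm y x := by
  apply ext5 <;> simp only [cm_0, cm_1, cm_2, cm_3, cm_4] <;> ring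

lemma cm_add_right (x y y' : E5) : cm x (y + y') = cm x y + cm x y' := by
  rw [cm_comm, cm_add_left, cm_comm y, cm_comm y']

lemma cm_smul_right (c : ℝ) (x y : E5) : cm x (c • y) = c • cm x y := by
  rw [cm_comm, cm_smul_left, cm_comm y]

lemma s3 : √3 ^ 2 = (3 : ℝ) := Real.sq_sqrt (by norm_num)

lemma cm_inner (x y z : E5) : ⟪cm x y, z⟫ = ⟪y, cm x z⟫ := by
  simp only [inner5, cm_0, cm_1, cm_2, cm_3, cm_4]; ring

lemma cm_norm (x : E5) : ⟪cm x x, cm x x⟫ = (‖x‖ ^ 2) ^ 2 := by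
  rw [normsq5]
  simp only [inner5, cm_0, cm_1, cm_2, cm_3, cm_4]
  have h := s3
  set s := √3
  linear_combination (x 2 ^ 2 * x 1 ^ 2 + x 1 ^ 2 * x 3 ^ 2 + x 2 ^ 2 * x 3 ^ 2 * (1/2)
   + x 3 ^ 2 * x 4 ^ 2  + x 2 ^ 2 * x 4 ^ 2 + x 2 ^ 4 / 4 + x 3 ^ 4 / 4) * h

lemma cm_cub (x : E5) : cm x (cm x x) = (‖x‖ ^ 2) • x := by
  rw [normsq5]
  have h := s3
  apply ext5 <;> simp only [PiLp.smul_apply, smul_eq_mul, cm_0, cm_1, cm_2, cm_3, cm_4] <;>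
    set s := √3
  · linear_combination (0 : ℝ) * h
  · linear_combination (x 1 * x 2 ^ 2 / 2 + x 1 * x 3 ^ 2 / 2) * h
  · linear_combination (x 2 * x 1 ^ 2 / 2 + x 2 * x 3 ^ 2 / 4 + x 2 * x 4 ^ 2 / 2
      + x 2 ^ 3 / 4) * h
  · linear_combination (x 3 * x 1 ^ 2 / 2 + x 3 * x 2 ^ 2 / 4 + x 3 * x 4 ^ 2 / 2
      + x 3 ^ 3 / 4) * h
  · linear_combination (x 4 * x 2 ^ 2 / 2 + x 4 * x 3 ^ 2 / 2) * h

/-- standard basis vectors -/
noncomputable def e5 (i : Fin 5) : E5 := EuclideanSpace.single i 1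

lemma e5_apply (i j : Fin 5) : e5 i j = if j = i then 1 else 0 := by
  simp [e5, EuclideanSpace.single_apply]

lemma cm_trace (x : E5) : ∑ i, ⟪e5 i, cm x (e5 i)⟫ = 0 := by
  simp only [Fin.sum_univ_five, inner5, cm_0, cm_1, cm_2, cm_3, cm_4, e5_apply]
  simp
  ring

lemma cm_frob (x : E5) : ∑ i, ⟪cm x (e5 i), cm x (e5 i)⟫ = (7 / 2) * ‖x‖ ^ 2 := by
  rw [normsq5]
  simp only [Fin.sum_univ_five, inner5, cm_0, cm_1, cm_2, cm_3, cm_4, e5_apply]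
  have h := s3
  set s := √3
  simp
  linear_combination (x 1 ^ 2 / 2 + x 2 ^ 2 + x 3 ^ 2 + x 4 ^ 2 / 2) * h

/-- The product as a bilinear map. -/
noncomputable def cmB : E5 →ₗ[ℝ] E5 →ₗ[ℝ] E5 :=
  LinearMap.mk₂ ℝ cm cm_add_left cm_smul_left cm_add_right cm_smul_right

/-- The product as a continuous bilinear map. -/
noncomputable def cmL : E5 →L[ℝ] E5 →L[ℝ] E5 :=
  LinearMap.toContinuousLinearMap
    ((LinearMap.toContinuousLinearMap : (E5 →ₗ[ℝ] E5) ≃ₗ[ℝ] (E5 →L[ℝ] E5)).toLinearMap ∘ₗ cmB)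

lemma cmL_apply (x y : E5) : cmL x y = cm x y := rfl

/-- Cartan's cubic -/
noncomputable def F3 (x : E5) : ℝ := ⟪cm x x, x⟫

lemma hasFDerivAt_sq (x : E5) : HasFDerivAt (fun x : E5 => cm x x) ((2 : ℝ) • cmL x) x := by
  have h := (cmL).hasFDerivAt_of_bilinear (hasFDerivAt_id x) (hasFDerivAt_id x)
  refine h.congr_fderiv ?_
  ext v : 1
  simp [cmL_apply, two_smul, cm_comm v x]

lemma hasFDerivAt_F3 (x : E5) : HasFDerivAt F3 ((3 : ℝ) • innerSL ℝ (cm x x)) x := by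
  have h := (hasFDerivAt_sq x).inner ℝ (hasFDerivAt_id x)
  refine h.congr_fderiv ?_
  ext v : 1
  simp only [ContinuousLinearMap.comp_apply, ContinuousLinearMap.prod_apply,
    ContinuousLinearMap.smul_apply, fderivInnerCLM_apply, innerSL_apply_apply,
    ContinuousLinearMap.id_apply, cmL_apply, id, smul_eq_mul, inner_smul_left]
  have h1 : ⟪cm x v, x⟫ = ⟪cm x x, v⟫ := by
    rw [cm_inner, real_inner_comm]
  rw [h1]
  simp
  ring

lemma F3_neg (x : E5) : F3 (-x) = - F3 x := by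
  have : cm (-x) (-x) = cm x x := by
    have h1 := cm_smul_left (-1) x (-x)
    have h2 := cm_smul_right (-1) x x
    simp only [neg_smul, one_smul] at h1 h2
    rw [h1, h2, neg_neg]
  unfold F3
  rw [this, inner_neg_right]

end Pool.Agent.Lib_MP_17e2c6_gt
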