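import Mathlib

open scoped RealInnerProductSpace
open Set MeasureTheory

namespace Pool.Agent.Lib_MP_17e2c6_gt

/-- `kappa m` is the `m`-dimensional volume of the Euclidean unit ball of `ℝ^m`. -/
noncomputable def kappa (m : ℕ) : ℝ :=
  (volume (Metric.closedBall (0 : EuclideanSpace ℝ (Fin m)) 1)).toReal

/-- `IsSteiner L W`: the numbers `W j` are the intrinsic volumes `V_j(L)` of the subset `L` of the
Euclidean space `V`, in the sense of Steiner's formula: the volume of the closed `ε`-neighbourhood
of `L` is `∑_j κ_{d-j} W_j ε^{d-j}` for every `ε > 0`, where `d = dim V`. -/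
def IsSteiner {V : Type*} [NormedAddCommGroup V] [InnerProductSpace ℝ V] [FiniteDimensional ℝ V]
    [MeasurableSpace V] [BorelSpace V] (L : Set V) (W : ℕ → ℝ) : Prop :=
  ∀ ε : ℝ, 0 < ε → (volume (Metric.cthickening ε L)).toReal =
    ∑ j ∈ Finset.range (Module.finrank ℝ V + 1),
      kappa (Module.finrank ℝ V - j) * W j * ε ^ (Module.finrank ℝ V - j)

/-- `HasIntrinsicVolume i L c`: the `i`-th intrinsic volume of `L` (a subset of a Euclidean space)
is `c`; that is, a Steiner formula holds for `L`, and the `i`-th intrinsic volume it gives is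
`c`. -/
def HasIntrinsicVolume {V : Type*} [NormedAddCommGroup V] [InnerProductSpace ℝ V]
    [FiniteDimensional ℝ V] [MeasurableSpace V] [BorelSpace V] (i : ℕ) (L : Set V) (c : ℝ) : Prop :=
  ∃ W : ℕ → ℝ, IsSteiner L W ∧ W i = c

section defs

variable {E : Type*} [NormedAddCommGroup E] [InnerProductSpace ℝ E] [FiniteDimensional ℝ E]

/-- The orthogonal projection `K|S` of `K` onto the linear subspace `S`, as a subset of the
Euclidean space `S`. -/
def proj (K : Set E) (S : Submodule ℝ E) : Set S :=
  S.orthogonalProjectionOnto '' K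

/-- A convex body: a compact convex set with nonempty interior. -/
def IsConvexBody (K : Set E) : Prop :=
  Convex ℝ K ∧ IsCompact K ∧ (interior K).Nonempty

variable [MeasurableSpace E] [BorelSpace E]

/-- Constant `i`-brightness: the `i`-dimensional volume of `K|S` is the same for all
`i`-dimensional linear subspaces `S`. -/
def ConstantBrightness (i : ℕ) (K : Set E) : Prop :=
  ∃ c : ENNReal, ∀ S : Submodule ℝ E, Module.finrank ℝ S = i → volume (proj K S) = c

/-- Constant `i`-girth: the `i`-th intrinsic volume of `K|u^⊥` is the same for all unit vectors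
`u`. -/
def ConstantGirth (i : ℕ) (K : Set E) : Prop :=
  ∃ c : ℝ, ∀ u : E, ‖u‖ = 1 → HasIntrinsicVolume i (proj K (ℝ ∙ u)ᗮ) c

end defs

lemma kappa_pos (m : ℕ) : 0 < kappa m := by
  unfold kappa
  rw [ENNReal.toReal_pos_iff]
  exact ⟨Metric.measure_closedBall_pos _ _ one_pos, measure_closedBall_lt_top⟩

section

variable {V : Type*} [NormedAddCommGroup V] [InnerProductSpace ℝ V]
    [FiniteDimensional ℝ V] [MeasurableSpace V] [BorelSpace V]

lemma IsSteiner.unique {L : Set V} {W W' : ℕ → ℝ} (h : IsSteiner L W) (h' : IsSteiner L W')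
    {j : ℕ} (hj : j ≤ Module.finrank ℝ V) : W j = W' j := by
  set d := Module.finrank ℝ V with hd
  let p : Polynomial ℝ := ∑ j ∈ Finset.range (d + 1),
    Polynomial.C (kappa (d - j) * (W j - W' j)) * Polynomial.X ^ (d - j)
  have hp : p = 0 := by
    apply Polynomial.eq_zero_of_infinite_isRoot
    apply Set.Infinite.mono (s := Set.Ioi (0 : ℝ)) _ (Set.Ioi_infinite 0)
    intro ε hε
    have h1 := h ε hε
    have h2 := h' ε hε
    rw [h1] at h2
    rw [← hd] at h2
    change Polynomial.IsRoot p ε
    rw [Polynomial.IsRoot.def]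
    simp only [p, Polynomial.eval_finsetSum, Polynomial.eval_mul, Polynomial.eval_C,
      Polynomial.eval_pow, Polynomial.eval_X]
    have : ∑ j ∈ Finset.range (d + 1), kappa (d - j) * (W j - W' j) * ε ^ (d - j)
        = (∑ j ∈ Finset.range (d + 1), kappa (d - j) * W j * ε ^ (d - j))
          - ∑ j ∈ Finset.range (d + 1), kappa (d - j) * W' j * ε ^ (d - j) := by
      rw [← Finset.sum_sub_distrib]
      apply Finset.sum_congr rfl
      intro i _
      ring
    rw [this, h2, sub_self]
  have hc := congrArg (fun q : Polynomial ℝ => q.coeff (d - j)) hp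
  simp only [p, Polynomial.finsetSum_coeff, Polynomial.coeff_C_mul, Polynomial.coeff_X_pow,
    Polynomial.coeff_zero] at hc
  rw [Finset.sum_eq_single j] at hc
  · rw [if_pos rfl, mul_one] at hc
    rcases mul_eq_zero.1 hc with h0 | h0
    · exact absurd h0 (kappa_pos _).ne'
    · linarith
  · intro i hi hij
    rw [if_neg, mul_zero]
    have := Finset.mem_range.1 hi
    omega
  · intro hni
    exact absurd (Finset.mem_range.2 (by omega)) hni

end

end Pool.Agent.Lib_MP_17e2c6_gt
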