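import Pool.Agent.Lib_MP_17e2c6_gt.Shadow

open scoped RealInnerProductSpace
open Set MeasureTheory

namespace Pool.Agent.Lib_MP_17e2c6_gt

variable {E : Type*} [NormedAddCommGroup E] [InnerProductSpace ℝ E] [FiniteDimensional ℝ E]

/-- the linear map `z ↦ ⟪x, z⟫ x` -/
noncomputable def rk (x : E) : E →ₗ[ℝ] E :=
  ((innerSL ℝ x).smulRight x : E →L[ℝ] E).toLinearMap

lemma rk_apply (x z : E) : rk x z = ⟪x, z⟫ • x := rfl

theorem det_compress (u : E) (hu1 : ‖u‖ = 1) (V : Submodule ℝ E) (hV : V = (ℝ ∙ u)ᗮ) (w : V)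
    (T : E →L[ℝ] E) (hT : ∀ a b, ⟪T a, b⟫ = ⟪a, T b⟫) (h0 : T ((w : E) + u) = 0) (s : ℝ) :
    LinearMap.det (T.toLinearMap + s • rk ((w : E) + u))
      = s * ‖(w : E) + u‖ ^ 4 * (fH V T).det := by
  have huu : ⟪u, u⟫ = 1 := by rw [real_inner_self_eq_norm_sq, hu1]; norm_num
  have huV : u ∈ Vᗮ := by
    rw [hV, Submodule.orthogonal_orthogonal]
    exact Submodule.mem_span_singleton_self u
  have hperp : ∀ w : V, ⟪(w : E), u⟫ = 0 := fun w => huV w w.2
  have hmem : ∀ z : E, ⟪z, u⟫ = 0 → z ∈ V := by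
    intro z hz
    rw [hV, Submodule.mem_orthogonal_singleton_iff_inner_left]
    exact hz
  set x : E := (w : E) + u with hx
  have hxu : ⟪x, u⟫ = 1 := by rw [hx, inner_add_left, hperp, huu]; norm_num
  have hxx : ‖x‖ ^ 2 = ‖w‖ ^ 2 + 1 := by
    have h1 : ⟪u, (w : E)⟫ = 0 := by rw [real_inner_comm]; exact hperp w
    rw [← real_inner_self_eq_norm_sq, hx, inner_add_left, inner_add_right, inner_add_right,
      hperp, h1, huu, real_inner_self_eq_norm_sq]
    simp
  set P := V.orthogonalProjectionOnto with hP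
  have hPin : ∀ (z : E) (w : V), ⟪P z, w⟫ = ⟪z, (w : E)⟫ := by
    intro z w
    rw [hP, Submodule.inner_orthogonalProjectionOnto_eq_of_mem_right]
  have hPV : ∀ v : V, P (v : E) = v := fun v =>
    Submodule.orthogonalProjectionOnto_mem_subspace_eq_self v
  have hPu : P u = 0 := by
    rw [hP]
    exact Submodule.orthogonalProjectionOnto_apply_of_mem_orthogonal huV
  have hPx : P x = w := by rw [hx, map_add, hPV, hPu, add_zero]
  -- the equivalence
  let e : (V × ℝ) ≃ₗ[ℝ] E :=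
    LinearEquiv.ofLinearMap
      ((V.subtype).coprod (LinearMap.toSpanSingleton ℝ E x))
      ((P.toLinearMap ∘ₗ (LinearMap.id - ((innerSL ℝ u).smulRight x : E →L[ℝ] E).toLinearMap)).prod
        (innerSL ℝ u).toLinearMap)
      (by
        ext z
        change ((P (z - ⟪u, z⟫ • x) : V) : E) + ⟪u, z⟫ • x = z
        have h1 : z - ⟪u, z⟫ • x ∈ V := by
          apply hmem
          rw [inner_sub_left, inner_smul_left, hxu, real_inner_comm]
          simp
        have h2 := hPV ⟨z - ⟪u, z⟫ • x, h1⟩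
        simp only at h2
        rw [h2]
        simp)
      (by
        apply LinearMap.ext
        rintro ⟨v, t⟩
        change (P ((v : E) + t • x - ⟪u, (v : E) + t • x⟫ • x), ⟪u, (v : E) + t • x⟫) = (v, t)
        have h1 : ⟪u, (v : E) + t • x⟫ = t := by
          rw [real_inner_comm, inner_add_left, inner_smul_left, hperp, hxu]; simp
        rw [h1, add_sub_cancel_right, hPV])
  have he : ∀ v t, e (v, t) = (v : E) + t • x := fun v t => rfl
  have hes : ∀ z, e.symm z = (P (z - ⟪u, z⟫ • x), ⟪u, z⟫) := fun z => rfl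
  set A := fH V T with hA
  have hAv : ∀ v : V, A v = P (T (v : E)) := fun v => rfl
  let C : V →ₗ[ℝ] V := (LinearMap.transvection (innerSL ℝ w).toLinearMap w) ∘ₗ A.toLinearMap
  let ℓ : (V × ℝ) →ₗ[ℝ] ℝ :=
    LinearMap.coprod (-(innerSL ℝ w).toLinearMap ∘ₗ A.toLinearMap
      + (s * ‖x‖ ^ 2 * 0) • (innerSL ℝ w).toLinearMap + s • (innerSL ℝ w).toLinearMap)
      (LinearMap.toSpanSingleton ℝ ℝ (s * ‖x‖ ^ 2 - 1))
  have hconj : (e.symm.toLinearMap ∘ₗ (T.toLinearMap + s • rk x) ∘ₗ e.toLinearMap)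
      = (C.prodMap LinearMap.id) ∘ₗ (LinearMap.transvection ℓ ((0 : V), (1 : ℝ))) := by
    apply LinearMap.ext
    rintro ⟨v, t⟩
    have hux : ⟪u, x⟫ = 1 := by rw [real_inner_comm]; exact hxu
    have hTu : ⟪u, T (v : E)⟫ = - ⟪w, A v⟫ := by
      have h1 : ⟪T (v : E), x⟫ = 0 := by rw [hT, h0, inner_zero_right]
      rw [hx, inner_add_right] at h1
      have h2 : ⟪w, A v⟫ = ⟪T (v : E), (w : E)⟫ := by rw [real_inner_comm, hAv, hPin]
      rw [h2, real_inner_comm]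
      linarith
    have hxv : ⟪x, (v : E)⟫ = ⟪w, v⟫ := by
      rw [hx, inner_add_left, real_inner_comm _ u, hperp, add_zero]; rfl
    have hxx' : ⟪x, x⟫ = ‖x‖ ^ 2 := real_inner_self_eq_norm_sq x
    have harg : T ((v : E) + t • x) + s • (⟪x, (v : E) + t • x⟫ • x)
        = T (v : E) + (s * (⟪w, v⟫ + t * ‖x‖ ^ 2)) • x := by
      rw [map_add, map_smul, h0, smul_zero, add_zero, inner_add_right, inner_smul_right, hxv,
        hxx', smul_smul]
    have hin : ⟪u, T (v : E) + (s * (⟪w, v⟫ + t * ‖x‖ ^ 2)) • x⟫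
        = - ⟪w, A v⟫ + s * (⟪w, v⟫ + t * ‖x‖ ^ 2) := by
      rw [inner_add_right, inner_smul_right, hTu, hux, mul_one]
    have hPa : P (T (v : E) + (s * (⟪w, v⟫ + t * ‖x‖ ^ 2)) • x
        - (- ⟪w, A v⟫ + s * (⟪w, v⟫ + t * ‖x‖ ^ 2)) • x) = A v + ⟪w, A v⟫ • w := by
      rw [map_sub, map_add, map_smul, map_smul, hPx, ← hAv]
      module
    have hL : (e.symm.toLinearMap ∘ₗ (T.toLinearMap + s • rk x) ∘ₗ e.toLinearMap) (v, t)
        = (A v + ⟪w, A v⟫ • w, - ⟪w, A v⟫ + s * (⟪w, v⟫ + t * ‖x‖ ^ 2)) := by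
      change e.symm (T ((v : E) + t • x) + s • (⟪x, (v : E) + t • x⟫ • x)) = _
      rw [harg, hes, hin, hPa]
    have hR : ((C.prodMap LinearMap.id) ∘ₗ (LinearMap.transvection ℓ ((0 : V), (1 : ℝ)))) (v, t)
        = (A v + ⟪w, A v⟫ • w, - ⟪w, A v⟫ + s * (⟪w, v⟫ + t * ‖x‖ ^ 2)) := by
      change (C (v + ℓ (v, t) • (0 : V)), t + ℓ (v, t) • (1 : ℝ)) = _
      refine Prod.ext ?_ ?_
      · simp only [smul_zero, add_zero]
        rfl
      · have hl : ℓ (v, t) = (-⟪w, A v⟫ + (s * ‖x‖ ^ 2 * 0) * ⟪w, v⟫ + s * ⟪w, v⟫)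
            + t * (s * ‖x‖ ^ 2 - 1) := rfl
        simp only [hl, smul_eq_mul]
        ring
    rw [hL, hR]
  have hdet := congrArg LinearMap.det hconj
  rw [LinearMap.det_comp, LinearMap.det_prodMap, LinearMap.det_id, mul_one,
    LinearMap.transvection.det] at hdet
  have hdc : LinearMap.det (e.symm.toLinearMap ∘ₗ (T.toLinearMap + s • rk x) ∘ₗ e.toLinearMap)
      = LinearMap.det (T.toLinearMap + s • rk x) := by
    have := LinearMap.det_conj (T.toLinearMap + s • rk x) e.symm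
    rw [← this]
    rfl
  rw [hdc] at hdet
  rw [hdet]
  have hC : LinearMap.det C = ‖x‖ ^ 2 * A.det := by
    simp only [C]
    rw [LinearMap.det_comp, LinearMap.transvection.det]
    have : (innerSL ℝ w).toLinearMap w = ‖w‖ ^ 2 := real_inner_self_eq_norm_sq w
    rw [this, hxx]
    have h2 : LinearMap.det A.toLinearMap = A.det := rfl
    rw [h2]
    ring
  have hl : ℓ ((0 : V), (1 : ℝ)) = s * ‖x‖ ^ 2 - 1 := by
    simp [ℓ]
  rw [hC, hl]
  ring

end Pool.Agent.Lib_MP_17e2c6_gt
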