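import Pool.Agent.Lib_MP_17e2c6_gt.Trace
import Pool.Agent.Lib_MP_17e2c6_gt.LinAlg

open scoped RealInnerProductSpace
open Set MeasureTheory

namespace Pool.Agent.Lib_MP_17e2c6_gt

lemma finrank_E5 : Module.finrank ℝ E5 = 5 := by simp

lemma sum_basis (S : E5 →ₗ[ℝ] E5) (b : OrthonormalBasis (Fin 5) ℝ E5) :
    ∑ i, ⟪e5 i, S (e5 i)⟫ = ∑ i, ⟪b i, S (b i)⟫ := by
  rw [← LinearMap.trace_eq_sum_inner S b,
    LinearMap.trace_eq_sum_inner S (EuclideanSpace.basisFun (Fin 5) ℝ)]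
  apply Finset.sum_congr rfl
  intro i _
  simp [e5]

/-- third power sum -/
noncomputable def tr1 (T : E5 →L[ℝ] E5) : ℝ := ∑ i, ⟪T (e5 i), e5 i⟫
noncomputable def tr2 (T : E5 →L[ℝ] E5) : ℝ := ∑ i, ⟪T (e5 i), T (e5 i)⟫
noncomputable def tr3 (T : E5 →L[ℝ] E5) : ℝ := ∑ i, ⟪T (T (e5 i)), T (e5 i)⟫
noncomputable def tr4 (T : E5 →L[ℝ] E5) : ℝ := ∑ i, ⟪T (T (e5 i)), T (T (e5 i))⟫

/-- elementary symmetric functions of a symmetric operator through power sums -/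
noncomputable def c1 (T : E5 →L[ℝ] E5) : ℝ := tr1 T
noncomputable def c2 (T : E5 →L[ℝ] E5) : ℝ := (tr1 T ^ 2 - tr2 T) / 2
noncomputable def c3 (T : E5 →L[ℝ] E5) : ℝ := (tr1 T ^ 3 - 3 * tr1 T * tr2 T + 2 * tr3 T) / 6
noncomputable def c4 (T : E5 →L[ℝ] E5) : ℝ :=
  (tr1 T ^ 4 - 6 * tr1 T ^ 2 * tr2 T + 3 * tr2 T ^ 2 + 8 * tr1 T * tr3 T - 6 * tr4 T) / 24

lemma exists_eig (T : E5 →L[ℝ] E5) (hT : ∀ a b, ⟪T a, b⟫ = ⟪a, T b⟫)
    (hpsd : ∀ a, 0 ≤ ⟪T a, a⟫) {x : E5} (hx : x ≠ 0) (h0 : T x = 0) :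
    ∃ l : Fin 5 → ℝ, (∀ i, 0 ≤ l i) ∧ ∏ i, l i = 0 ∧
      (∀ τ : ℝ, LinearMap.det (T.toLinearMap + τ • LinearMap.id) = ∏ i, (l i + τ)) ∧
      tr1 T = ∑ i, l i ∧ tr2 T = ∑ i, l i ^ 2 ∧ tr3 T = ∑ i, l i ^ 3 ∧ tr4 T = ∑ i, l i ^ 4 := by
  have hsym : T.toLinearMap.IsSymmetric := fun a b => hT a b
  set b := hsym.eigenvectorBasis finrank_E5 with hb
  set l := hsym.eigenvalues finrank_E5 with hl
  have hTb : ∀ i, T (b i) = l i • b i := fun i => hsym.apply_eigenvectorBasis finrank_E5 i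
  have hbb : ∀ i, ⟪b i, b i⟫ = 1 := by
    intro i
    rw [real_inner_self_eq_norm_sq, b.norm_eq_one]; norm_num
  have hdet : ∀ τ : ℝ, LinearMap.det (T.toLinearMap + τ • LinearMap.id) = ∏ i, (l i + τ) := by
    intro τ
    rw [← LinearMap.det_toMatrix b.toBasis]
    have : LinearMap.toMatrix b.toBasis b.toBasis (T.toLinearMap + τ • LinearMap.id)
        = Matrix.diagonal fun i => l i + τ := by
      ext i j
      rw [LinearMap.toMatrix_apply, OrthonormalBasis.coe_toBasis,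
        OrthonormalBasis.coe_toBasis_repr_apply]
      have h1 : (T.toLinearMap + τ • LinearMap.id : E5 →ₗ[ℝ] E5) (b j) = (l j + τ) • b j := by
        change T (b j) + τ • b j = _
        rw [hTb, add_smul]
      rw [h1, map_smul, OrthonormalBasis.repr_self]
      simp only [PiLp.smul_apply, smul_eq_mul, Matrix.diagonal_apply]
      by_cases hij : i = j
      · subst hij; simp
      · simp [hij]
    rw [this, Matrix.det_diagonal]
  refine ⟨l, ?_, ?_, hdet, ?_, ?_, ?_, ?_⟩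
  · intro i
    have := hpsd (b i)
    rw [hTb, inner_smul_left, hbb] at this
    simpa using this
  · have h1 := hdet 0
    simp only [add_zero, zero_smul] at h1
    rw [← h1]
    by_contra hne
    have hu : IsUnit (LinearMap.det T.toLinearMap) := isUnit_iff_ne_zero.2 hne
    have hinj : Function.Injective T := by
      have := (LinearMap.isUnit_iff_isUnit_det _).2 hu
      exact ((Module.End.isUnit_iff _).1 this).1
    apply hx
    apply hinj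
    rw [h0, map_zero]
  · have h := sum_basis T.toLinearMap b
    unfold tr1
    have e1 : ∑ i, ⟪T (e5 i), e5 i⟫ = ∑ i, ⟪e5 i, T.toLinearMap (e5 i)⟫ :=
      Finset.sum_congr rfl fun i _ => hT _ _
    rw [e1, h]
    apply Finset.sum_congr rfl
    intro i _
    change ⟪b i, T (b i)⟫ = _
    rw [hTb, inner_smul_right, hbb]; ring
  · have h := sum_basis (T.toLinearMap ∘ₗ T.toLinearMap) b
    unfold tr2
    have e1 : ∑ i, ⟪T (e5 i), T (e5 i)⟫
        = ∑ i, ⟪e5 i, (T.toLinearMap ∘ₗ T.toLinearMap) (e5 i)⟫ :=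
      Finset.sum_congr rfl fun i _ => hT _ _
    rw [e1, h]
    apply Finset.sum_congr rfl
    intro i _
    change ⟪b i, T (T (b i))⟫ = _
    simp only [hTb, map_smul, inner_smul_right, hbb]; ring
  · have h := sum_basis (T.toLinearMap ∘ₗ T.toLinearMap ∘ₗ T.toLinearMap) b
    unfold tr3
    have e1 : ∑ i, ⟪T (T (e5 i)), T (e5 i)⟫
        = ∑ i, ⟪e5 i, (T.toLinearMap ∘ₗ T.toLinearMap ∘ₗ T.toLinearMap) (e5 i)⟫ :=
      Finset.sum_congr rfl fun i _ => by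
        change _ = ⟪e5 i, T (T (T (e5 i)))⟫
        rw [hT, hT]
    rw [e1, h]
    apply Finset.sum_congr rfl
    intro i _
    change ⟪b i, T (T (T (b i)))⟫ = _
    simp only [hTb, map_smul, inner_smul_right, hbb]; ring
  · have h := sum_basis (T.toLinearMap ∘ₗ T.toLinearMap ∘ₗ T.toLinearMap ∘ₗ T.toLinearMap) b
    unfold tr4
    have e1 : ∑ i, ⟪T (T (e5 i)), T (T (e5 i))⟫
        = ∑ i, ⟪e5 i, (T.toLinearMap ∘ₗ T.toLinearMap ∘ₗ T.toLinearMap ∘ₗ T.toLinearMap) (e5 i)⟫ :=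
      Finset.sum_congr rfl fun i _ => by
        change _ = ⟪e5 i, T (T (T (T (e5 i))))⟫
        rw [hT, hT]
    rw [e1, h]
    apply Finset.sum_congr rfl
    intro i _
    change ⟪b i, T (T (T (T (b i))))⟫ = _
    simp only [hTb, map_smul, inner_smul_right, hbb]; ring

lemma det_expand (T : E5 →L[ℝ] E5) (hT : ∀ a b, ⟪T a, b⟫ = ⟪a, T b⟫)
    (hpsd : ∀ a, 0 ≤ ⟪T a, a⟫) {x : E5} (hx : x ≠ 0) (h0 : T x = 0) :
    (∀ τ : ℝ, LinearMap.det (T.toLinearMap + τ • LinearMap.id)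
      = τ * (τ ^ 4 + c1 T * τ ^ 3 + c2 T * τ ^ 2 + c3 T * τ + c4 T)) ∧
    0 ≤ c1 T ∧ 0 ≤ c2 T ∧ 0 ≤ c3 T ∧ 0 ≤ c4 T := by
  obtain ⟨l, hl, hp, hd, t1, t2, t3, t4⟩ := exists_eig T hT hpsd hx h0
  simp only [Fin.sum_univ_five, Fin.prod_univ_five] at *
  have q0 := hl 0
  have q1 := hl 1
  have q2 := hl 2
  have q3 := hl 3
  have q4 := hl 4
  have E1 : c1 T = l 0 + l 1 + l 2 + l 3 + l 4 := by unfold c1; rw [t1]
  have E2 : c2 T = l 0 * l 1 + l 0 * l 2 + l 0 * l 3 + l 0 * l 4 + l 1 * l 2 + l 1 * l 3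
      + l 1 * l 4 + l 2 * l 3 + l 2 * l 4 + l 3 * l 4 := by
    unfold c2; rw [t1, t2]; ring
  have E3 : c3 T = l 0 * l 1 * l 2 + l 0 * l 1 * l 3 + l 0 * l 1 * l 4 + l 0 * l 2 * l 3
      + l 0 * l 2 * l 4 + l 0 * l 3 * l 4 + l 1 * l 2 * l 3 + l 1 * l 2 * l 4 + l 1 * l 3 * l 4
      + l 2 * l 3 * l 4 := by
    unfold c3; rw [t1, t2, t3]; ring
  have E4 : c4 T = l 0 * l 1 * l 2 * l 3 + l 0 * l 1 * l 2 * l 4 + l 0 * l 1 * l 3 * l 4
      + l 0 * l 2 * l 3 * l 4 + l 1 * l 2 * l 3 * l 4 := by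
    unfold c4; rw [t1, t2, t3, t4]; ring
  refine ⟨?_, ?_, ?_, ?_, ?_⟩
  · intro τ
    rw [hd τ, E1, E2, E3, E4]
    linear_combination hp
  · rw [E1]; positivity
  · rw [E2]; positivity
  · rw [E3]; positivity
  · rw [E4]; positivity

end Pool.Agent.Lib_MP_17e2c6_gt
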