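import Pool.Agent.Lib_MP_17e2c6_gt.Steiner

open scoped RealInnerProductSpace
open Set MeasureTheory

namespace Pool.Agent.Lib_MP_17e2c6_gt

noncomputable def JJ (g a v : ℝ → ℝ) (V : Submodule ℝ E5) (u : E5) (j : ℕ) : ENNReal :=
  ∫⁻ w : V, ENNReal.ofReal (qf g a v j ((w : E5) + u))

section
variable {g a v : ℝ → ℝ} {m : ℝ} (hP : IsProfile g a v m)

lemma add_ne {u : E5} (hu1 : ‖u‖ = 1) {V : Submodule ℝ E5}
    (hV : V = (ℝ ∙ u)ᗮ) (w : V) : (w : E5) + u ≠ 0 := by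
  have huV : u ∈ Vᗮ := by
    rw [hV, Submodule.orthogonal_orthogonal]
    exact Submodule.mem_span_singleton_self u
  have huu : ⟪u, u⟫ = 1 := by rw [real_inner_self_eq_norm_sq, hu1]; norm_num
  intro h0
  have h1 : ⟪(w : E5) + u, u⟫ = 0 := by rw [h0, inner_zero_left]
  have h2 : ⟪(w : E5), u⟫ = 0 := huV w w.2
  rw [inner_add_left, h2, huu] at h1
  norm_num at h1

lemma add_norm_sq {u : E5} (hu1 : ‖u‖ = 1) {V : Submodule ℝ E5}
    (hV : V = (ℝ ∙ u)ᗮ) (w : V) : ‖(w : E5) + u‖ ^ 2 = 1 + ‖w‖ ^ 2 := by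
  have huV : u ∈ Vᗮ := by
    rw [hV, Submodule.orthogonal_orthogonal]
    exact Submodule.mem_span_singleton_self u
  have h2 : ⟪(w : E5), u⟫ = 0 := huV w w.2
  rw [norm_add_sq_real, h2, hu1]
  simp only [Submodule.coe_norm]
  ring

lemma finrank_V {u : E5} (hu1 : ‖u‖ = 1) {V : Submodule ℝ E5}
    (hV : V = (ℝ ∙ u)ᗮ) : Module.finrank ℝ V = 4 := by
  have hu : u ≠ 0 := by
    intro h; rw [h, norm_zero] at hu1; norm_num at hu1
  have : Fact (Module.finrank ℝ E5 = 4 + 1) := ⟨by simp⟩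
  rw [hV]
  exact Submodule.finrank_orthogonal_span_singleton hu

include hP

lemma vol_sum {ε : ℝ} (hε : 0 < ε) {u : E5} (hu1 : ‖u‖ = 1) {V : Submodule ℝ E5}
    (hV : V = (ℝ ∙ u)ᗮ) :
    volume (Metric.cthickening ε (V.orthogonalProjectionOnto '' body (hh g)))
      = ∑ j ∈ Finset.range 5, ENNReal.ofReal (ε ^ (4 - j)) * JJ g a v V u j := by
  rw [vol_cthick hP hε hu1 hV]
  have hne := add_ne hu1 hV
  have h1 : ∀ w : V, ENNReal.ofReal |(fH V (HHe g a v ε ((w : E5) + u))).det|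
      = ∑ j ∈ Finset.range 5, ENNReal.ofReal (ε ^ (4 - j))
        * ENNReal.ofReal (qf g a v j ((w : E5) + u)) := by
    intro w
    have hdet : (fH V (HHe g a v ε ((w : E5) + u))).det
        = ∑ j ∈ Finset.range 5, ε ^ (4 - j) * qf g a v j ((w : E5) + u) := by
      rw [det_fH hP hε hu1 hV w]
      simp [Finset.sum_range_succ, qf]
    have hnn : ∀ j ∈ Finset.range 5, 0 ≤ ε ^ (4 - j) * qf g a v j ((w : E5) + u) := by
      intro j _
      have := qf_nonneg hP (hne w) j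
      positivity
    rw [hdet, abs_of_nonneg (Finset.sum_nonneg hnn), ENNReal.ofReal_sum_of_nonneg hnn]
    apply Finset.sum_congr rfl
    intro j _
    rw [ENNReal.ofReal_mul (by positivity)]
  simp_rw [h1]
  rw [lintegral_finsetSum]
  · apply Finset.sum_congr rfl
    intro j _
    rw [lintegral_const_mul _ (qf_meas hP hne j).ennreal_ofReal]
    rfl
  · intro j _
    exact (qf_meas hP hne j).ennreal_ofReal.const_mul _

lemma vol_lt_top (V : Submodule ℝ E5) (ε : ℝ) :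
    volume (Metric.cthickening ε (V.orthogonalProjectionOnto '' body (hh g))) < ⊤ := by
  have hLc : IsCompact (V.orthogonalProjectionOnto '' body (hh g)) :=
    (body_compact hP).image (V.orthogonalProjectionOnto).continuous
  exact hLc.cthickening.measure_lt_top

lemma JJ_lt_top {u : E5} (hu1 : ‖u‖ = 1) {V : Submodule ℝ E5}
    (hV : V = (ℝ ∙ u)ᗮ) {j : ℕ} (hj : j < 5) : JJ g a v V u j ≠ ⊤ := by
  have h1 := vol_sum hP one_pos hu1 hV
  have h2 := vol_lt_top hP V 1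
  rw [h1] at h2
  have h3 := (ENNReal.sum_lt_top.1 h2) j (Finset.mem_range.2 hj)
  simp only [one_pow, ENNReal.ofReal_one, one_mul] at h3
  exact h3.ne

lemma isSteiner_V {u : E5} (hu1 : ‖u‖ = 1) {V : Submodule ℝ E5}
    (hV : V = (ℝ ∙ u)ᗮ) :
    IsSteiner (V.orthogonalProjectionOnto '' body (hh g))
      (fun j => (JJ g a v V u j).toReal / kappa (4 - j)) := by
  intro ε hε
  rw [finrank_V hu1 hV, vol_sum hP hε hu1 hV, ENNReal.toReal_sum]
  · apply Finset.sum_congr rfl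
    intro j _
    rw [ENNReal.toReal_mul, ENNReal.toReal_ofReal (by positivity)]
    have := (kappa_pos (4 - j)).ne'
    field_simp
  · intro j hj
    exact ENNReal.mul_ne_top ENNReal.ofReal_ne_top
      (JJ_lt_top hP hu1 hV (Finset.mem_range.1 hj))

lemma JJ_neg {u : E5} (hu1 : ‖u‖ = 1) {V : Submodule ℝ E5}
    (hV : V = (ℝ ∙ u)ᗮ) : JJ g a v V (-u) 2 = JJ g a v V u 2 := by
  have hV' : V = (ℝ ∙ (-u))ᗮ := by
    rw [hV, ← Set.neg_singleton, Submodule.span_neg]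
  have hu1' : ‖-u‖ = 1 := by rwa [norm_neg]
  have h1 := isSteiner_V hP hu1 hV
  have h2 := isSteiner_V hP hu1' hV'
  have h3 := h2.unique h1 (j := 2) (by rw [finrank_V hu1 hV]; norm_num)
  have hk := (kappa_pos (4 - 2)).ne'
  have h4 : (JJ g a v V (-u) 2).toReal = (JJ g a v V u 2).toReal := by
    rw [div_left_inj' hk] at h3
    exact h3
  exact (ENNReal.toReal_eq_toReal_iff' (JJ_lt_top hP hu1' hV' (by norm_num))
    (JJ_lt_top hP hu1 hV (by norm_num))).1 h4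

lemma JJ_two {u : E5} (hu1 : ‖u‖ = 1) {V : Submodule ℝ E5}
    (hV : V = (ℝ ∙ u)ᗮ) :
    2 * JJ g a v V u 2 = ∫⁻ w : V, ENNReal.ofReal (6 * (2 + m) / (1 + ‖w‖ ^ 2) ^ 3) := by
  have hne := add_ne hu1 hV
  have h1 : JJ g a v V (-u) 2
      = ∫⁻ w : V, ENNReal.ofReal (qf g a v 2 (-((w : E5) + u))) := by
    unfold JJ
    rw [← lintegral_neg_eq_self]
    apply lintegral_congr
    intro w
    congr 2
    push_cast
    abel
  rw [two_mul]
  conv_lhs => arg 2; rw [← JJ_neg hP hu1 hV, h1]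
  unfold JJ
  rw [← lintegral_add_left (qf_meas hP hne 2).ennreal_ofReal]
  apply lintegral_congr
  intro w
  have hx := hne w
  rw [← ENNReal.ofReal_add (qf_nonneg hP hx 2) (qf_nonneg hP (neg_ne_zero.2 hx) 2)]
  congr 1
  have h2 := e2_sum hP hx
  have h3 := add_norm_sq hu1 hV w
  have hn : ‖(w : E5) + u‖ ≠ 0 := norm_ne_zero_iff.2 hx
  change c2 (HH g a v ((w : E5) + u)) / ‖(w : E5) + u‖ ^ 4
    + c2 (HH g a v (-((w : E5) + u))) / ‖-((w : E5) + u)‖ ^ 4 = _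
  rw [norm_neg, ← add_div]
  have h4 : c2 (HH g a v ((w : E5) + u)) + c2 (HH g a v (-((w : E5) + u)))
      = 6 * (2 + m) / ‖(w : E5) + u‖ ^ 2 := h2
  rw [h4, ← h3]
  field_simp

/-- the body has constant 2-girth -/
theorem girth_const : ConstantGirth 2 (body (hh g)) := by
  refine ⟨((∫⁻ w : EuclideanSpace ℝ (Fin 4), ENNReal.ofReal (6 * (2 + m) / (1 + ‖w‖ ^ 2) ^ 3)) /
    2).toReal / kappa (4 - 2), ?_⟩
  intro u hu1
  set V : Submodule ℝ E5 := (ℝ ∙ u)ᗮ with hV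
  have hfr := finrank_V hu1 hV
  refine ⟨_, isSteiner_V hP hu1 hV, ?_⟩
  congr 2
  have h1 := JJ_two hP hu1 hV
  have h2 : ∫⁻ w : V, ENNReal.ofReal (6 * (2 + m) / (1 + ‖w‖ ^ 2) ^ 3)
      = ∫⁻ w : EuclideanSpace ℝ (Fin 4), ENNReal.ofReal (6 * (2 + m) / (1 + ‖w‖ ^ 2) ^ 3) := by
    let e : V ≃ₗᵢ[ℝ] EuclideanSpace ℝ (Fin 4) :=
      ((stdOrthonormalBasis ℝ V).reindex (finCongr hfr)).repr
    have he := e.measurePreserving
    rw [← he.lintegral_comp_emb e.toHomeomorph.measurableEmbedding]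
    apply lintegral_congr
    intro w
    rw [e.norm_map]
  rw [← h2, ← h1]
  rw [mul_comm, ENNReal.mul_div_cancel_right (by norm_num) (by norm_num)]

end

end Pool.Agent.Lib_MP_17e2c6_gt
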