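import Pool.Agent.Lib_MP_17e2c6_gt.Girth

open scoped RealInnerProductSpace
open Set MeasureTheory

namespace Pool.Agent.Lib_MP_17e2c6_gt

/-- restricted support function on the plane `x₂ = x₃ = x₄ = 0` -/
noncomputable def rho (g : ℝ → ℝ) (θ : ℝ) : ℝ := phi g (Real.cos (3 * θ))
noncomputable def rho1 (a : ℝ → ℝ) (θ : ℝ) : ℝ := (-3 * Real.sin (3 * θ)) * bb a (Real.cos (3 * θ))
noncomputable def rho2 (a v : ℝ → ℝ) (θ : ℝ) : ℝ :=
  9 * sg a v (Real.cos (3 * θ)) - 9 * Real.cos (3 * θ) * bb a (Real.cos (3 * θ))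

lemma hasDerivAt_mul_of_zero {c Y : ℝ → ℝ} {Y' : ℝ} {x : ℝ}
    (hc : ContinuousAt c x) (hY : HasDerivAt Y Y' x) (h0 : Y x = 0) :
    HasDerivAt (fun x => Y x * c x) (Y' * c x) x := by
  rw [hasDerivAt_iff_isLittleO] at hY ⊢
  have h1 : (fun z => Y z * c z - Y x * c x - (z - x) • (Y' * c x))
      = fun z => c z * (Y z - Y x - (z - x) • Y') + (c z - c x) * ((z - x) • Y') := by
    ext1 z
    rw [h0]
    simp only [smul_eq_mul]
    ring
  rw [h1]
  apply Asymptotics.IsLittleO.add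
  · have hb : (fun z => c z) =O[nhds x] fun _ => (1 : ℝ) := hc.isBigO_one ℝ
    have := hb.mul_isLittleO hY
    simpa using this
  · have hb : (fun z => c z - c x) =o[nhds x] fun _ => (1 : ℝ) := by
      rw [Asymptotics.isLittleO_one_iff]
      have := hc.tendsto.sub_const (c x)
      simpa using this
    have hb2 : (fun z => (z - x) • Y') =O[nhds x] fun z => z - x := by
      apply Asymptotics.IsBigO.of_bound ‖Y'‖
      refine Filter.Eventually.of_forall fun z => ?_
      rw [norm_smul, mul_comm]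
    have := hb.mul_isBigO hb2
    simpa using this

section
variable {g a v : ℝ → ℝ} {m : ℝ} (hP : IsProfile g a v m)
include hP

omit hP in
lemma hasDeriv_cos3 (θ : ℝ) : HasDerivAt (fun θ : ℝ => Real.cos (3 * θ)) (-3 * Real.sin (3 * θ)) θ := by
  have h1 : HasDerivAt (fun θ : ℝ => 3 * θ) 3 θ := by
    simpa using (hasDerivAt_id θ).const_mul 3
  have h2 := h1.cos
  refine h2.congr_deriv ?_
  ring

omit hP in
lemma hasDeriv_sin3 (θ : ℝ) :
    HasDerivAt (fun θ : ℝ => -3 * Real.sin (3 * θ)) (-9 * Real.cos (3 * θ)) θ := by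
  have h1 : HasDerivAt (fun θ : ℝ => 3 * θ) 3 θ := by
    simpa using (hasDerivAt_id θ).const_mul 3
  have h2 := h1.sin.const_mul (-3)
  refine h2.congr_deriv ?_
  ring

lemma rho_deriv (θ : ℝ) : HasDerivAt (rho g) (rho1 a θ) θ := by
  have h := (phi_deriv hP (Real.cos (3 * θ))).comp θ (hasDeriv_cos3 θ)
  refine h.congr_deriv ?_
  unfold rho1; ring

lemma rho1_deriv (θ : ℝ) : HasDerivAt (rho1 a) (rho2 a v θ) θ := by
  have hy : |Real.cos (3 * θ)| ≤ 1 := Real.abs_cos_le_one _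
  have hs : Real.sin (3 * θ) ^ 2 = 1 - Real.cos (3 * θ) ^ 2 := by
    rw [Real.sin_sq]
  by_cases h0 : Real.sin (3 * θ) = 0
  · have hc : ContinuousAt (fun θ : ℝ => bb a (Real.cos (3 * θ))) θ := by
      have := bb_cont hP
      fun_prop
    have h := hasDerivAt_mul_of_zero hc (hasDeriv_sin3 θ) (by rw [h0]; ring)
    refine h.congr_deriv ?_
    unfold rho2
    rw [← psi_mul hP hy, ← hs, h0]
    ring
  · have hlt : |Real.cos (3 * θ)| < 1 := by
      rw [← sq_lt_one_iff_abs_lt_one]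
      have : 0 < Real.sin (3 * θ) ^ 2 := by positivity
      linarith
    have h := (hasDeriv_sin3 θ).mul ((bb_deriv hP hlt).comp θ (hasDeriv_cos3 θ))
    refine h.congr_deriv ?_
    unfold rho2
    rw [← psi_mul hP hy, ← hs]
    simp only [Function.comp_apply]
    ring

lemma rho_cont : Continuous (rho g) :=
  continuous_iff_continuousAt.2 fun θ => (rho_deriv hP θ).continuousAt

lemma rho1_cont : Continuous (rho1 a) :=
  continuous_iff_continuousAt.2 fun θ => (rho1_deriv hP θ).continuousAt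

lemma rho2_cont : Continuous (rho2 a v) := by
  have h1 := bb_cont hP
  have h2 : Continuous (sg a v) := by
    have := hP.a_cont
    have := hP.v_cont
    unfold sg
    fun_prop
  unfold rho2
  fun_prop

lemma rho_pos (θ : ℝ) : 98 / 100 ≤ rho g θ := phi_pos hP (Real.abs_cos_le_one _)

lemma bb_small {y : ℝ} (hy : |y| ≤ 1) : |bb a y| ≤ 11 / 1000 := by
  have ha := hP.a_le _ hy
  have he : eps = 1 / 100 := rfl
  unfold bb
  calc _ ≤ |a y| + |eps| := abs_add_le _ _
    _ ≤ 11 / 1000 := by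
      have : |eps| = 1 / 100 := by rw [he]; norm_num
      rw [this]
      rw [he] at ha
      linarith

lemma sg_small {y : ℝ} (hy : |y| ≤ 1) : |sg a v y| ≤ 1 / 1000 := by
  have ha := hP.a_le _ hy
  have hv := hP.v_le _ hy
  have he : eps = 1 / 100 := rfl
  unfold sg
  have h1 : |2 * y * a y| ≤ 3 * eps ^ 2 := by
    rw [abs_mul, abs_mul]
    have : |(2 : ℝ)| = 2 := by norm_num
    rw [this]
    nlinarith [abs_nonneg y, abs_nonneg (a y)]
  rw [he] at h1 hv
  calc _ ≤ |v y| + |2 * y * a y| := abs_add_le _ _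
    _ ≤ _ := by linarith

lemma curv_pos (θ : ℝ) : 0 < rho g θ + rho2 a v θ := by
  have hy : |Real.cos (3 * θ)| ≤ 1 := Real.abs_cos_le_one _
  have h1 := rho_pos hP θ
  have h2 := bb_small hP hy
  have h3 := sg_small hP hy
  have h4 : |Real.cos (3 * θ) * bb a (Real.cos (3 * θ))| ≤ 11 / 1000 := by
    rw [abs_mul]
    nlinarith [abs_nonneg (Real.cos (3 * θ)), abs_nonneg (bb a (Real.cos (3 * θ)))]
  unfold rho2
  rw [abs_le] at h3 h4
  nlinarith [h3.1, h3.2, h4.1, h4.2]

/-! ### the parametrization -/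

noncomputable def Psi (g a : ℝ → ℝ) (p : ℝ × ℝ) : ℝ × ℝ :=
  (p.1 * (rho g p.2 * Real.cos p.2 - rho1 a p.2 * Real.sin p.2),
   p.1 * (rho g p.2 * Real.sin p.2 + rho1 a p.2 * Real.cos p.2))

noncomputable def dPsi (g a v : ℝ → ℝ) (p : ℝ × ℝ) : ℝ × ℝ →L[ℝ] ℝ × ℝ :=
  (Matrix.toLin (.finTwoProd ℝ) (.finTwoProd ℝ)
    !![rho g p.2 * Real.cos p.2 - rho1 a p.2 * Real.sin p.2,
       p.1 * (-(rho g p.2 + rho2 a v p.2) * Real.sin p.2);
       rho g p.2 * Real.sin p.2 + rho1 a p.2 * Real.cos p.2,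
       p.1 * ((rho g p.2 + rho2 a v p.2) * Real.cos p.2)]).toContinuousLinearMap

omit hP in
lemma det_dPsi (p : ℝ × ℝ) :
    (dPsi g a v p).det = p.1 * (rho g p.2 * (rho g p.2 + rho2 a v p.2)) := by
  unfold dPsi
  simp only [LinearMap.det_toContinuousLinearMap, LinearMap.det_toLin,
    Matrix.det_fin_two_of]
  have h := Real.sin_sq_add_cos_sq p.2
  linear_combination (p.1 * (rho g p.2 * (rho g p.2 + rho2 a v p.2))) * h

lemma hasFDerivAt_Psi (p : ℝ × ℝ) : HasFDerivAt (Psi g a) (dPsi g a v p) p := by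
  unfold dPsi
  rw [Matrix.toLin_finTwoProd_toContinuousLinearMap]
  have hX : HasDerivAt (fun θ => rho g θ * Real.cos θ - rho1 a θ * Real.sin θ)
      (-(rho g p.2 + rho2 a v p.2) * Real.sin p.2) p.2 := by
    have := ((rho_deriv hP p.2).mul (Real.hasDerivAt_cos p.2)).sub
      ((rho1_deriv hP p.2).mul (Real.hasDerivAt_sin p.2))
    refine this.congr_deriv ?_
    ring
  have hZ : HasDerivAt (fun θ => rho g θ * Real.sin θ + rho1 a θ * Real.cos θ)
      ((rho g p.2 + rho2 a v p.2) * Real.cos p.2) p.2 := by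
    have := ((rho_deriv hP p.2).mul (Real.hasDerivAt_sin p.2)).add
      ((rho1_deriv hP p.2).mul (Real.hasDerivAt_cos p.2))
    refine this.congr_deriv ?_
    ring
  have h1 := (hasFDerivAt_fst (𝕜 := ℝ) (E := ℝ) (F := ℝ) (p := p)).mul
    (hX.comp_hasFDerivAt p hasFDerivAt_snd)
  have h2 := (hasFDerivAt_fst (𝕜 := ℝ) (E := ℝ) (F := ℝ) (p := p)).mul
    (hZ.comp_hasFDerivAt p hasFDerivAt_snd)
  refine (h1.prodMk h2).congr_fderiv ?_
  ext <;> simp

/-! ### covering the planar projection -/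

lemma cover {z0 z1 : ℝ} (hz : ∀ θ : ℝ, z0 * Real.cos θ + z1 * Real.sin θ ≤ rho g θ) :
    (z0, z1) ∈ Psi g a '' (Icc 0 1 ×ˢ Icc 0 (2 * Real.pi)) := by
  by_cases h0 : z0 = 0 ∧ z1 = 0
  · refine ⟨(0, 0), ⟨⟨le_rfl, zero_le_one⟩, ⟨le_rfl, by positivity⟩⟩, ?_⟩
    simp [Psi, h0.1, h0.2]
  · set N : ℝ → ℝ := fun θ => z0 * Real.cos θ + z1 * Real.sin θ with hN
    set r : ℝ → ℝ := fun θ => N θ / rho g θ with hr
    have hrp : ∀ θ, 0 < rho g θ := fun θ => by linarith [rho_pos hP θ]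
    have hNc : Continuous N := by fun_prop
    have hrc : Continuous r := hNc.div (rho_cont hP) fun θ => (hrp θ).ne'
    have hper : Function.Periodic r (2 * Real.pi) := by
      intro θ
      simp only [hr, hN, rho]
      have : 3 * (θ + 2 * Real.pi) = 3 * θ + (3 : ℕ) * (2 * Real.pi) := by push_cast; ring
      rw [this, Real.cos_add_nat_mul_two_pi, Real.cos_add_two_pi, Real.sin_add_two_pi]
    obtain ⟨θ0, hθ0, hmax⟩ := (isCompact_Icc (a := (0 : ℝ)) (b := 2 * Real.pi)).exists_isMaxOn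
      ⟨0, ⟨le_rfl, by positivity⟩⟩ hrc.continuousOn
    have hmax' : ∀ θ, r θ ≤ r θ0 := by
      intro θ
      obtain ⟨y, hy, hy2⟩ := hper.exists_mem_Ico₀ (by positivity) θ
      rw [hy2]
      exact hmax ⟨hy.1, hy.2.le⟩
    have hNr : ∀ θ, N θ = r θ * rho g θ := by
      intro θ
      simp only [hr]
      have := (hrp θ).ne'
      field_simp
    have hs0 : 0 < r θ0 := by
      by_contra hcon
      push Not at hcon
      have hall : ∀ θ, N θ ≤ 0 := by
        intro θ
        rw [hNr]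
        have := hmax' θ
        have := hrp θ
        nlinarith
      have e1 := hall 0
      have e2 := hall Real.pi
      have e3 := hall (Real.pi / 2)
      have e4 := hall (-(Real.pi / 2))
      simp only [hN, Real.cos_zero, Real.sin_zero, Real.cos_pi, Real.sin_pi, Real.cos_pi_div_two,
        Real.sin_pi_div_two, Real.cos_neg, Real.sin_neg] at e1 e2 e3 e4
      apply h0
      constructor <;> linarith
    have hs1 : r θ0 ≤ 1 := by
      simp only [hr]
      rw [div_le_one (hrp θ0)]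
      exact hz θ0
    -- critical point
    have hNd : HasDerivAt N (-z0 * Real.sin θ0 + z1 * Real.cos θ0) θ0 := by
      have := ((Real.hasDerivAt_cos θ0).const_mul z0).add ((Real.hasDerivAt_sin θ0).const_mul z1)
      refine this.congr_deriv ?_
      ring
    have hrd := hNd.div (rho_deriv hP θ0) (hrp θ0).ne'
    have hlm : IsLocalMax r θ0 := Filter.Eventually.of_forall hmax'
    have hcrit := hlm.hasDerivAt_eq_zero hrd
    have hcrit2 : (-z0 * Real.sin θ0 + z1 * Real.cos θ0) * rho g θ0 - N θ0 * rho1 a θ0 = 0 := by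
      rcases div_eq_zero_iff.1 hcrit with h | h
      · exact h
      · exact absurd h (pow_ne_zero 2 (hrp θ0).ne')
    rw [hNr θ0] at hcrit2
    have hT : -z0 * Real.sin θ0 + z1 * Real.cos θ0 = r θ0 * rho1 a θ0 := by
      have h1 : (-z0 * Real.sin θ0 + z1 * Real.cos θ0 - r θ0 * rho1 a θ0) * rho g θ0 = 0 := by
        linarith
      rcases mul_eq_zero.1 h1 with h | h
      · linarith
      · exact absurd h (hrp θ0).ne'
    have hNN : z0 * Real.cos θ0 + z1 * Real.sin θ0 = r θ0 * rho g θ0 := hNr θ0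
    have htr := Real.sin_sq_add_cos_sq θ0
    refine ⟨(r θ0, θ0), ⟨⟨hs0.le, hs1⟩, hθ0⟩, ?_⟩
    unfold Psi
    simp only
    refine Prod.ext ?_ ?_
    · simp only
      linear_combination (-Real.cos θ0) * hNN + (Real.sin θ0) * hT + z0 * htr
    · simp only
      linear_combination (-Real.sin θ0) * hNN - (Real.cos θ0) * hT + z1 * htr

/-! ### the area bound -/

lemma area_le {Q : Set (ℝ × ℝ)}
    (hQ : ∀ p ∈ Q, ∀ θ : ℝ, p.1 * Real.cos θ + p.2 * Real.sin θ ≤ rho g θ) :
    volume Q ≤ ENNReal.ofReal ((1 / 2) * ∫ θ in (0 : ℝ)..(2 * Real.pi),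
      rho g θ * (rho g θ + rho2 a v θ)) := by
  have hpi : 0 ≤ 2 * Real.pi := by positivity
  have hsub : Q ⊆ Psi g a '' (Icc 0 1 ×ˢ Icc 0 (2 * Real.pi)) := by
    rintro ⟨z0, z1⟩ hp
    exact cover hP (hQ _ hp)
  have hmeas : MeasurableSet ((Icc 0 1 ×ˢ Icc 0 (2 * Real.pi)) : Set (ℝ × ℝ)) :=
    measurableSet_Icc.prod measurableSet_Icc
  refine (measure_mono hsub).trans ?_
  refine (addHaar_image_le_lintegral_abs_det_fderiv volume hmeas
    (fun p _ => (hasFDerivAt_Psi hP p).hasFDerivWithinAt)).trans ?_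
  have hcB : Continuous fun θ => rho g θ * (rho g θ + rho2 a v θ) := by
    have := rho_cont hP
    have := rho2_cont hP
    fun_prop
  have hnB : ∀ θ, 0 ≤ rho g θ * (rho g θ + rho2 a v θ) := by
    intro θ
    have := rho_pos hP θ
    have := curv_pos hP θ
    positivity
  have h1 : ∫⁻ p in (Icc 0 1 ×ˢ Icc 0 (2 * Real.pi) : Set (ℝ × ℝ)),
      ENNReal.ofReal |(dPsi g a v p).det|
      = ∫⁻ p in (Icc 0 1 ×ˢ Icc 0 (2 * Real.pi) : Set (ℝ × ℝ)),
        ENNReal.ofReal p.1 * ENNReal.ofReal (rho g p.2 * (rho g p.2 + rho2 a v p.2)) := by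
    apply setLIntegral_congr_fun hmeas
    rintro ⟨s, θ⟩ ⟨hs, _⟩
    simp only at hs ⊢
    rw [det_dPsi, abs_of_nonneg (mul_nonneg hs.1 (hnB θ)), ENNReal.ofReal_mul hs.1]
  rw [h1]
  change ∫⁻ p in (Icc 0 1 ×ˢ Icc 0 (2 * Real.pi) : Set (ℝ × ℝ)),
        ENNReal.ofReal p.1 * ENNReal.ofReal (rho g p.2 * (rho g p.2 + rho2 a v p.2))
          ∂((volume : Measure ℝ).prod volume) ≤ _
  rw [← Measure.prod_restrict, lintegral_prod_mul (f := fun s => ENNReal.ofReal s)
    (g := fun θ => ENNReal.ofReal (rho g θ * (rho g θ + rho2 a v θ)))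
    (by fun_prop) (hcB.measurable.ennreal_ofReal.aemeasurable)]
  have h2 : ∫⁻ s in Icc (0 : ℝ) 1, ENNReal.ofReal s = ENNReal.ofReal (1 / 2) := by
    rw [← ofReal_integral_eq_lintegral_ofReal]
    · congr 1
      rw [integral_Icc_eq_integral_Ioc, ← intervalIntegral.integral_of_le zero_le_one]
      simp
    · exact (continuous_id.integrableOn_Icc)
    · exact (ae_restrict_iff' measurableSet_Icc).2 (Filter.Eventually.of_forall fun s hs => hs.1)
  have h3 : ∫⁻ θ in Icc (0 : ℝ) (2 * Real.pi), ENNReal.ofReal (rho g θ * (rho g θ + rho2 a v θ))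
      = ENNReal.ofReal (∫ θ in (0 : ℝ)..(2 * Real.pi), rho g θ * (rho g θ + rho2 a v θ)) := by
    rw [← ofReal_integral_eq_lintegral_ofReal]
    · congr 1
      rw [integral_Icc_eq_integral_Ioc, ← intervalIntegral.integral_of_le hpi]
    · exact hcB.integrableOn_Icc
    · exact Filter.Eventually.of_forall fun θ => hnB θ
  rw [h2, h3, ← ENNReal.ofReal_mul (by norm_num)]

lemma integral_lt : (1 / 2) * ∫ θ in (0 : ℝ)..(2 * Real.pi),
      rho g θ * (rho g θ + rho2 a v θ) < Real.pi := by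
  have hr := rho_cont hP
  have hr1 := rho1_cont hP
  have hr2 := rho2_cont hP
  have hibp : ∫ θ in (0 : ℝ)..(2 * Real.pi), rho g θ * rho2 a v θ
      = - ∫ θ in (0 : ℝ)..(2 * Real.pi), rho1 a θ * rho1 a θ := by
    rw [intervalIntegral.integral_mul_deriv_eq_deriv_mul (u := rho g) (v := rho1 a)
      (u' := rho1 a) (v' := rho2 a v) (fun θ _ => rho_deriv hP θ) (fun θ _ => rho1_deriv hP θ)
      (hr1.intervalIntegrable _ _) (hr2.intervalIntegrable _ _)]
    have e1 : rho1 a (2 * Real.pi) = 0 := by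
      unfold rho1
      have : Real.sin (3 * (2 * Real.pi)) = 0 := by
        have : 3 * (2 * Real.pi) = ((6 : ℕ) : ℝ) * Real.pi := by push_cast; ring
        rw [this, Real.sin_nat_mul_pi]
      rw [this]; ring
    have e2 : rho1 a 0 = 0 := by unfold rho1; simp
    rw [e1, e2]; ring
  have hsplit : ∫ θ in (0 : ℝ)..(2 * Real.pi), rho g θ * (rho g θ + rho2 a v θ)
      = ∫ θ in (0 : ℝ)..(2 * Real.pi), (rho g θ * rho g θ - rho1 a θ * rho1 a θ) := by
    have i1 : IntervalIntegrable (fun θ => rho g θ * rho g θ) volume 0 (2 * Real.pi) :=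
      (hr.mul hr).intervalIntegrable _ _
    have i2 : IntervalIntegrable (fun θ => rho1 a θ * rho1 a θ) volume 0 (2 * Real.pi) :=
      (hr1.mul hr1).intervalIntegrable _ _
    have i3 : IntervalIntegrable (fun θ => rho g θ * rho2 a v θ) volume 0 (2 * Real.pi) :=
      (hr.mul hr2).intervalIntegrable _ _
    rw [intervalIntegral.integral_sub i1 i2, sub_eq_add_neg, ← hibp,
      ← intervalIntegral.integral_add i1 i3]
    congr 1
    ext θ
    ring
  rw [hsplit]
  have he : eps = 1 / 100 := rfl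
  have hpt : ∀ θ ∈ Icc (0 : ℝ) (2 * Real.pi), rho g θ * rho g θ - rho1 a θ * rho1 a θ
      ≤ 1 - 6 / 100000 + (2 * eps) * Real.cos (3 * θ) + (5 * eps ^ 2) * Real.cos (6 * θ) := by
    intro θ _
    have hc6 : Real.cos (6 * θ) = 2 * Real.cos (3 * θ) ^ 2 - 1 := by
      rw [← Real.cos_two_mul]; congr 1; ring
    have hs : Real.sin (3 * θ) ^ 2 = 1 - Real.cos (3 * θ) ^ 2 := Real.sin_sq _
    have hy : |Real.cos (3 * θ)| ≤ 1 := Real.abs_cos_le_one _
    unfold rho rho1 phi bb
    set c := Real.cos (3 * θ)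
    set s := Real.sin (3 * θ)
    have hg := hP.g_le c hy
    have ha := hP.a_le c hy
    rw [he] at hg ha
    rw [hc6, he]
    have hs1 : s ^ 2 ≤ 1 := by nlinarith [sq_nonneg c]
    have hs0 : 0 ≤ s ^ 2 := sq_nonneg s
    have e : (1 + g c + 1 / 100 * c) * (1 + g c + 1 / 100 * c)
        - -3 * s * (a c + 1 / 100) * (-3 * s * (a c + 1 / 100))
        = 1 + (g c) ^ 2 + 2 * g c + 2 / 100 * (g c * c) + (2 * (1 / 100)) * c
          + (1 / 100) ^ 2 * c ^ 2 - 9 * s ^ 2 * (a c) ^ 2 - 18 / 100 * (s ^ 2 * a c)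
          - 9 * (1 / 100) ^ 2 * s ^ 2 := by ring
    rw [e]
    have t1 : |g c * c| ≤ 3 / 20000 := by
      rw [abs_mul]; nlinarith [abs_nonneg (g c), abs_nonneg c]
    have t2 : |s ^ 2 * a c| ≤ 3 / 20000 := by
      rw [abs_mul, abs_of_nonneg hs0]; nlinarith [abs_nonneg (a c)]
    have t3 : (g c) ^ 2 ≤ 1 / 10000000 := by
      rw [← sq_abs]; nlinarith [abs_nonneg (g c)]
    have t4 : 0 ≤ 9 * s ^ 2 * (a c) ^ 2 := by positivity
    rw [abs_le] at t1 t2 hg
    rw [hs]
    rw [hs] at t4 t2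
    nlinarith [t1.1, t1.2, t2.1, t2.2, hg.1, hg.2, t3, t4]
  have hint : ∫ θ in (0 : ℝ)..(2 * Real.pi), (rho g θ * rho g θ - rho1 a θ * rho1 a θ)
      ≤ ∫ θ in (0 : ℝ)..(2 * Real.pi),
        (1 - 6 / 100000 + (2 * eps) * Real.cos (3 * θ) + (5 * eps ^ 2) * Real.cos (6 * θ)) := by
    apply intervalIntegral.integral_mono_on (by positivity)
    · exact ((hr.mul hr).sub (hr1.mul hr1)).intervalIntegrable _ _
    · exact Continuous.intervalIntegrable (by fun_prop) _ _
    · exact hpt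
  have hval : ∫ θ in (0 : ℝ)..(2 * Real.pi),
        (1 - 6 / 100000 + (2 * eps) * Real.cos (3 * θ) + (5 * eps ^ 2) * Real.cos (6 * θ))
      = (1 - 6 / 100000) * (2 * Real.pi) := by
    rw [intervalIntegral.integral_add (Continuous.intervalIntegrable (by fun_prop) _ _)
      (Continuous.intervalIntegrable (by fun_prop) _ _),
      intervalIntegral.integral_add (Continuous.intervalIntegrable (by fun_prop) _ _)
      (Continuous.intervalIntegrable (by fun_prop) _ _),
      intervalIntegral.integral_const_mul, intervalIntegral.integral_const_mul,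
      intervalIntegral.integral_comp_mul_left (fun x => Real.cos x) (by norm_num : (3 : ℝ) ≠ 0),
      intervalIntegral.integral_comp_mul_left (fun x => Real.cos x) (by norm_num : (6 : ℝ) ≠ 0)]
    rw [integral_cos, integral_cos]
    have s1 : Real.sin (3 * (2 * Real.pi)) = 0 := by
      have : 3 * (2 * Real.pi) = ((6 : ℕ) : ℝ) * Real.pi := by push_cast; ring
      rw [this, Real.sin_nat_mul_pi]
    have s2 : Real.sin (6 * (2 * Real.pi)) = 0 := by
      have : 6 * (2 * Real.pi) = ((12 : ℕ) : ℝ) * Real.pi := by push_cast; ring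
      rw [this, Real.sin_nat_mul_pi]
    rw [s1, s2]
    simp
    ring
  rw [hval] at hint
  have hpi := Real.pi_pos
  nlinarith

end

end Pool.Agent.Lib_MP_17e2c6_gt
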