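import Mathlib

open Set MeasureTheory intervalIntegral

namespace Pool.Agent.Lib_MP_17e2c6_gt

lemma h11 : (-1 : ℝ) ≤ 1 := by norm_num

/-- continuous functions on `[-1,1]` -/
abbrev XX : Type := C(Icc (-1 : ℝ) 1, ℝ)

/-- constant extension to the line -/
noncomputable def vE (v : XX) : ℝ → ℝ := Set.IccExtend h11 v

lemma vE_cont (v : XX) : Continuous (vE v) := v.continuous.Icc_extend'

lemma vE_le (v : XX) (y : ℝ) : |vE v y| ≤ ‖v‖ := by
  have := v.norm_coe_le_norm (projIcc (-1 : ℝ) 1 h11 y)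
  simpa [vE, Set.IccExtend, Real.norm_eq_abs] using this

lemma vE_sub (v w : XX) (y : ℝ) : vE (v - w) y = vE v y - vE w y := by
  simp [vE, Set.IccExtend]

lemma vE_apply (v : XX) (y : ℝ) (hy : y ∈ Icc (-1 : ℝ) 1) : vE v y = v ⟨y, hy⟩ := by
  simp [vE, Set.IccExtend_of_mem h11 _ hy]

noncomputable def pE (v : XX) (y : ℝ) : ℝ := ∫ s in (0 : ℝ)..y, vE v s

noncomputable def M1 (v : XX) (y : ℝ) : ℝ := ∫ τ in (0 : ℝ)..1, vE v (1 - (1 - y) * τ)

noncomputable def M2 (v : XX) (y : ℝ) : ℝ := ∫ τ in (0 : ℝ)..1, vE v (-1 + (1 + y) * τ)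

noncomputable def aE (v : XX) (y : ℝ) : ℝ := (1 / 2) * (M2 v y - M1 v y)

noncomputable def gE (v : XX) (y : ℝ) : ℝ := ∫ s in (0 : ℝ)..y, aE v s

lemma M1_cont (v : XX) : Continuous (M1 v) := by
  have : Continuous (Function.uncurry fun (y τ : ℝ) => vE v (1 - (1 - y) * τ)) := by
    have := vE_cont v
    fun_prop
  exact continuous_parametric_intervalIntegral_of_continuous' this 0 1

lemma M2_cont (v : XX) : Continuous (M2 v) := by
  have : Continuous (Function.uncurry fun (y τ : ℝ) => vE v (-1 + (1 + y) * τ)) := by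
    have := vE_cont v
    fun_prop
  exact continuous_parametric_intervalIntegral_of_continuous' this 0 1

lemma aE_cont (v : XX) : Continuous (aE v) := by
  have h1 := M1_cont v
  have h2 := M2_cont v
  unfold aE
  fun_prop

lemma gE_hasDeriv (v : XX) (y : ℝ) : HasDerivAt (gE v) (aE v y) y :=
  (aE_cont v).integral_hasStrictDerivAt 0 y |>.hasDerivAt

lemma pE_hasDeriv (v : XX) (y : ℝ) : HasDerivAt (pE v) (vE v y) y :=
  (vE_cont v).integral_hasStrictDerivAt 0 y |>.hasDerivAt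

lemma gE_cont (v : XX) : Continuous (gE v) :=
  continuous_iff_continuousAt.2 fun y => (gE_hasDeriv v y).continuousAt

lemma M1_sub (v w : XX) (y : ℝ) : M1 (v - w) y = M1 v y - M1 w y := by
  unfold M1
  rw [← intervalIntegral.integral_sub]
  · simp [vE_sub]
  · exact ((vE_cont v).comp (by fun_prop)).intervalIntegrable _ _
  · exact ((vE_cont w).comp (by fun_prop)).intervalIntegrable _ _

lemma M2_sub (v w : XX) (y : ℝ) : M2 (v - w) y = M2 v y - M2 w y := by
  unfold M2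
  rw [← intervalIntegral.integral_sub]
  · simp [vE_sub]
  · exact ((vE_cont v).comp (by fun_prop)).intervalIntegrable _ _
  · exact ((vE_cont w).comp (by fun_prop)).intervalIntegrable _ _

lemma aE_sub (v w : XX) (y : ℝ) : aE (v - w) y = aE v y - aE w y := by
  unfold aE; rw [M1_sub, M2_sub]; ring

lemma gE_sub (v w : XX) (y : ℝ) : gE (v - w) y = gE v y - gE w y := by
  unfold gE
  rw [← intervalIntegral.integral_sub ((aE_cont v).intervalIntegrable _ _)
    ((aE_cont w).intervalIntegrable _ _)]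
  simp [aE_sub]

/-- even with mean zero -/
structure Good (v : XX) : Prop where
  even : ∀ y : ℝ, vE v (-y) = vE v y
  mean : ∫ s in (-1 : ℝ)..1, vE v s = 0

lemma Good.sub {v w : XX} (hv : Good v) (hw : Good w) : Good (v - w) := by
  refine ⟨fun y => by rw [vE_sub, vE_sub, hv.even, hw.even], ?_⟩
  have : (fun s => vE (v - w) s) = fun s => vE v s - vE w s := by ext s; exact vE_sub v w s
  rw [this, intervalIntegral.integral_sub ((vE_cont v).intervalIntegrable _ _)
    ((vE_cont w).intervalIntegrable _ _), hv.mean, hw.mean, sub_zero]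

section good
variable {v : XX}

lemma int_split (v : XX) (a b c : ℝ) :
    (∫ s in a..b, vE v s) + ∫ s in b..c, vE v s = ∫ s in a..c, vE v s :=
  intervalIntegral.integral_add_adjacent_intervals ((vE_cont v).intervalIntegrable _ _)
    ((vE_cont v).intervalIntegrable _ _)

lemma Good.half (hv : Good v) : ∫ s in (0 : ℝ)..1, vE v s = 0 := by
  have h1 : ∫ s in (-1 : ℝ)..0, vE v s = ∫ s in (0 : ℝ)..1, vE v s := by
    have h := intervalIntegral.integral_comp_neg (a := (0 : ℝ)) (b := 1) (vE v)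
    rw [neg_zero] at h
    rw [← h]
    congr 1
    ext s
    exact hv.even s
  have h2 := int_split v (-1) 0 1
  rw [hv.mean, h1] at h2
  linarith

lemma Good.half' (hv : Good v) : ∫ s in (-1 : ℝ)..0, vE v s = 0 := by
  have h2 := int_split v (-1) 0 1
  rw [hv.mean, hv.half] at h2
  linarith

lemma Good.M2_eq (hv : Good v) (y : ℝ) : (1 + y) * M2 v y = pE v y := by
  have h := intervalIntegral.smul_integral_comp_add_mul (a := (0 : ℝ)) (b := 1) (vE v)
    (1 + y) (-1)
  rw [smul_eq_mul] at h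
  unfold M2 pE
  rw [h]
  have h2 := int_split v (-1) 0 y
  rw [hv.half', zero_add] at h2
  rw [h2]
  congr 1 <;> ring

lemma Good.M1_eq (hv : Good v) (y : ℝ) : (1 - y) * M1 v y = - pE v y := by
  have h := intervalIntegral.smul_integral_comp_sub_mul (a := (0 : ℝ)) (b := 1) (vE v)
    (1 - y) 1
  rw [smul_eq_mul] at h
  unfold M1 pE
  rw [h]
  have h2 := int_split v 0 y 1
  rw [hv.half] at h2
  have h3 : ∫ s in (1 - (1 - y) * 1 : ℝ)..(1 - (1 - y) * 0), vE v s
      = ∫ s in y..1, vE v s := by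
    congr 1 <;> ring
  rw [h3]
  linarith

lemma Good.pa (hv : Good v) (y : ℝ) : (1 - y ^ 2) * aE v y = pE v y := by
  unfold aE
  have h1 := hv.M1_eq y
  have h2 := hv.M2_eq y
  linear_combination (1 / 2) * (1 - y) * h2 - (1 / 2) * (1 + y) * h1

lemma Good.a_odd (hv : Good v) (y : ℝ) : aE v (-y) = - aE v y := by
  have h1 : M1 v (-y) = M2 v y := by
    unfold M1 M2
    congr 1; ext τ
    rw [← hv.even]; congr 1; ring
  have h2 : M2 v (-y) = M1 v y := by
    unfold M1 M2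
    congr 1; ext τ
    rw [← hv.even]; congr 1; ring
  unfold aE
  rw [h1, h2]; ring

lemma Good.g_even (hv : Good v) (y : ℝ) : gE v (-y) = gE v y := by
  unfold gE
  have h := intervalIntegral.integral_comp_neg (a := (0 : ℝ)) (b := y) (aE v)
  rw [neg_zero] at h
  rw [intervalIntegral.integral_symm, ← h, ← intervalIntegral.integral_neg]
  congr 1; ext s
  rw [hv.a_odd]; ring

lemma M1_le (v : XX) (y : ℝ) : |M1 v y| ≤ ‖v‖ := by
  have h := intervalIntegral.norm_integral_le_of_norm_le_const (a := (0 : ℝ)) (b := 1)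
    (f := fun τ => vE v (1 - (1 - y) * τ)) (C := ‖v‖) (fun τ _ => vE_le v _)
  simpa [M1] using h

lemma pE_le (v : XX) (y : ℝ) : |pE v y| ≤ ‖v‖ * |y| := by
  have h := intervalIntegral.norm_integral_le_of_norm_le_const (a := (0 : ℝ)) (b := y)
    (f := fun τ => vE v τ) (C := ‖v‖) (fun τ _ => vE_le v _)
  simpa [pE] using h

lemma Good.a_bound0 (hv : Good v) {y : ℝ} (h0 : 0 ≤ y) (h1 : y ≤ 1) :
    |aE v y| ≤ (2 / 3) * ‖v‖ := by
  have hn : 0 ≤ ‖v‖ := norm_nonneg v
  rcases le_total y (1 / 2) with h | h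
  · have h2 := pE_le v y
    rw [← hv.pa y, abs_mul, abs_of_nonneg (by nlinarith : 0 ≤ 1 - y ^ 2), abs_of_nonneg h0] at h2
    have h3 : 3 / 4 ≤ 1 - y ^ 2 := by nlinarith
    have h4 : 3 / 4 * |aE v y| ≤ (1 - y ^ 2) * |aE v y| :=
      mul_le_mul_of_nonneg_right h3 (abs_nonneg _)
    have h5 : ‖v‖ * y ≤ ‖v‖ * (1 / 2) := mul_le_mul_of_nonneg_left h hn
    linarith
  · have h2 : (1 + y) * aE v y = - M1 v y := by
      have e1 := hv.M1_eq y
      have e2 := hv.M2_eq y
      unfold aE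
      linear_combination (1 / 2) * e1 + (1 / 2) * e2
    have h3 := M1_le v y
    rw [← abs_neg, ← h2, abs_mul, abs_of_nonneg (by linarith : 0 ≤ 1 + y)] at h3
    have h4 : 3 / 2 * |aE v y| ≤ (1 + y) * |aE v y| :=
      mul_le_mul_of_nonneg_right (by linarith) (abs_nonneg _)
    linarith

lemma Good.a_bound (hv : Good v) {y : ℝ} (hy : |y| ≤ 1) : |aE v y| ≤ (2 / 3) * ‖v‖ := by
  rcases le_total 0 y with h | h
  · exact hv.a_bound0 h (le_trans (le_abs_self y) hy)
  · have := hv.a_bound0 (y := -y) (by linarith) (by rw [abs_of_nonpos h] at hy; exact hy)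
    rwa [hv.a_odd, abs_neg] at this

lemma Good.g_lip (hv : Good v) {y z : ℝ} (hy : |y| ≤ 1) (hz : |z| ≤ 1) :
    |gE v y - gE v z| ≤ (2 / 3) * ‖v‖ * |y - z| := by
  have h := intervalIntegral.norm_integral_le_of_norm_le_const (a := z) (b := y)
    (f := fun τ => aE v τ) (C := (2 / 3) * ‖v‖) (fun τ hτ => by
      apply hv.a_bound
      rw [abs_le] at hy hz ⊢
      rcases Set.mem_uIoc.1 hτ with h | h
      · constructor <;> linarith [h.1, h.2]
      · constructor <;> linarith [h.1, h.2])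
  have h2 : gE v y - gE v z = ∫ τ in z..y, aE v τ := by
    unfold gE
    rw [intervalIntegral.integral_interval_sub_left ((aE_cont v).intervalIntegrable _ _)
      ((aE_cont v).intervalIntegrable _ _)]
  rw [h2]
  simpa using h

lemma Good.g_osc (hv : Good v) {y z : ℝ} (hy : |y| ≤ 1) (hz : |z| ≤ 1) :
    |gE v y - gE v z| ≤ (2 / 3) * ‖v‖ := by
  have e : ∀ y, gE v y = gE v |y| := by
    intro y
    rcases abs_choice y with h | h
    · rw [h]
    · rw [h, hv.g_even]
  rw [e y, e z]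
  have h := hv.g_lip (y := |y|) (z := |z|) (by rwa [abs_abs]) (by rwa [abs_abs])
  have h2 : |(|y| - |z|)| ≤ 1 := by
    rw [abs_le]; constructor <;> linarith [abs_nonneg y, abs_nonneg z]
  have h3 : 0 ≤ (2 / 3) * ‖v‖ := by positivity
  calc _ ≤ _ := h
    _ ≤ (2 / 3) * ‖v‖ * 1 := mul_le_mul_of_nonneg_left h2 h3
    _ = _ := by ring

lemma gE_zero (v : XX) : gE v 0 = 0 := by simp [gE]

lemma Good.g_bound (hv : Good v) {y : ℝ} (hy : |y| ≤ 1) : |gE v y| ≤ (2 / 3) * ‖v‖ := by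
  have := hv.g_osc hy (z := 0) (by simp)
  rwa [gE_zero, sub_zero] at this

lemma Good.a_hasDeriv (hv : Good v) {y : ℝ} (hy : |y| < 1) :
    HasDerivAt (aE v) ((vE v y + 2 * y * aE v y) / (1 - y ^ 2)) y := by
  have hpos : 0 < 1 - y ^ 2 := by
    have := (sq_lt_one_iff_abs_lt_one y).2 hy
    linarith
  have h1 : HasDerivAt (fun y => pE v y / (1 - y ^ 2))
      ((vE v y * (1 - y ^ 2) - pE v y * (-(2 * y))) / (1 - y ^ 2) ^ 2) y := by
    have h2 : HasDerivAt (fun y : ℝ => 1 - y ^ 2) (-(2 * y)) y := by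
      have := ((hasDerivAt_pow 2 y).const_sub 1)
      simpa using this
    exact (pE_hasDeriv v y).div h2 hpos.ne'
  have h3 : (aE v) =ᶠ[nhds y] fun y => pE v y / (1 - y ^ 2) := by
    have : ∀ᶠ z in nhds y, |z| < 1 := by
      exact (continuous_abs.isOpen_preimage _ isOpen_Iio).mem_nhds hy
    filter_upwards [this] with z hz
    have hz' : 0 < 1 - z ^ 2 := by
      have := (sq_lt_one_iff_abs_lt_one z).2 hz
      linarith
    rw [← hv.pa z]
    field_simp
  have h4 := h1.congr_of_eventuallyEq h3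
  refine h4.congr_deriv ?_
  rw [← hv.pa y]
  field_simp
  ring

lemma Good.end1 (hv : Good v) : vE v 1 + 2 * aE v 1 = 0 := by
  have h1 : M1 v 1 = vE v 1 := by simp [M1]
  have h2 : M2 v 1 = 0 := by
    have := hv.M2_eq 1
    have h3 : pE v 1 = 0 := hv.half
    rw [h3] at this
    linarith
  unfold aE
  rw [h1, h2]; ring

end good

/-- the small parameter -/
noncomputable def eps : ℝ := 1 / 100

noncomputable def NE (v : XX) (y : ℝ) : ℝ :=
  4 * gE v y + (2 * (gE v y) ^ 2 + 9 * gE v y * vE v y - 9 * (1 + 2 * y ^ 2) * (aE v y) ^ 2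
    - 27 * y * aE v y * vE v y) + eps ^ 2 * (20 * y ^ 2 - 9)

lemma NE_cont (v : XX) : Continuous (NE v) := by
  have h1 := gE_cont v
  have h2 := aE_cont v
  have h3 := vE_cont v
  unfold NE
  fun_prop

noncomputable def mE (v : XX) : ℝ := (1 / 2) * ∫ s in (-1 : ℝ)..1, NE v s

noncomputable def TE (v : XX) (y : ℝ) : ℝ := (1 / 9) * (mE v - NE v y)

lemma TE_cont (v : XX) : Continuous (TE v) := by
  have := NE_cont v
  unfold TE
  fun_prop

noncomputable def TT (v : XX) : XX := ⟨fun y => TE v y, (TE_cont v).comp continuous_subtype_val⟩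

lemma vE_TT (v : XX) {y : ℝ} (hy : y ∈ Icc (-1 : ℝ) 1) : vE (TT v) y = TE v y := by
  rw [vE_apply _ _ hy]; rfl

lemma Good.N_even {v : XX} (hv : Good v) (y : ℝ) : NE v (-y) = NE v y := by
  unfold NE
  rw [hv.even, hv.a_odd, hv.g_even]
  ring

lemma even_of {v : XX} (h : ∀ y ∈ Icc (-1 : ℝ) 1, vE v (-y) = vE v y) (y : ℝ) :
    vE v (-y) = vE v y := by
  rcases le_total y (-1) with h1 | h1
  · have e1 : vE v y = vE v (-1) := by
      unfold vE
      rw [Set.IccExtend_of_le_left h11 _ h1, Set.IccExtend_left]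
    have e2 : vE v (-y) = vE v 1 := by
      unfold vE
      rw [Set.IccExtend_of_right_le h11 _ (by linarith), Set.IccExtend_right]
    rw [e1, e2]
    have := h (-1) (by norm_num)
    rwa [neg_neg] at this
  rcases le_total 1 y with h2 | h2
  · have e1 : vE v (-y) = vE v (-1) := by
      unfold vE
      rw [Set.IccExtend_of_le_left h11 _ (by linarith), Set.IccExtend_left]
    have e2 : vE v y = vE v 1 := by
      unfold vE
      rw [Set.IccExtend_of_right_le h11 _ h2, Set.IccExtend_right]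
    rw [e1, e2]
    exact h 1 (by norm_num)
  · exact h y ⟨h1, h2⟩

lemma Good.TT {v : XX} (hv : Good v) : Good (TT v) := by
  refine ⟨?_, ?_⟩
  · apply even_of
    intro y hy
    rw [vE_TT _ hy, vE_TT _ (by constructor <;> linarith [hy.1, hy.2])]
    unfold TE
    rw [hv.N_even]
  · have h1 : ∫ s in (-1 : ℝ)..1, vE (Lib_MP_17e2c6_gt.TT v) s = ∫ s in (-1 : ℝ)..1, TE v s := by
      apply intervalIntegral.integral_congr
      intro s hs
      rw [Set.uIcc_of_le h11] at hs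
      exact vE_TT v hs
    rw [h1]
    unfold TE
    rw [intervalIntegral.integral_const_mul, intervalIntegral.integral_sub
      (continuous_const.intervalIntegrable _ _) ((NE_cont v).intervalIntegrable _ _)]
    simp [mE]
    ring

lemma mean_bound {f : ℝ → ℝ} (hf : Continuous f) {C y : ℝ}
    (h : ∀ s ∈ Icc (-1 : ℝ) 1, |f s - f y| ≤ C) :
    |(1 / 2) * (∫ s in (-1 : ℝ)..1, f s) - f y| ≤ C := by
  have h1 : (1 / 2) * (∫ s in (-1 : ℝ)..1, f s) - f y
      = (1 / 2) * ∫ s in (-1 : ℝ)..1, (f s - f y) := by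
    rw [intervalIntegral.integral_sub (hf.intervalIntegrable _ _)
      (continuous_const.intervalIntegrable _ _)]
    simp
    ring
  rw [h1, abs_mul]
  have h2 := intervalIntegral.norm_integral_le_of_norm_le_const (a := (-1 : ℝ)) (b := 1)
    (f := fun s => f s - f y) (C := C) (fun τ hτ => by
      apply h
      rw [Set.uIoc_of_le h11] at hτ
      exact ⟨hτ.1.le, hτ.2⟩)
  rw [Real.norm_eq_abs] at h2
  have h3 : |(1 : ℝ) - (-1)| = 2 := by norm_num
  rw [h3] at h2
  have h4 : |(1 / 2 : ℝ)| = 1 / 2 := by norm_num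
  rw [h4]
  linarith

/-- radius of the ball -/
noncomputable def RR : ℝ := 9 / 4 * eps ^ 2

lemma quad_bound {R D g1 g2 a1 a2 v1 v2 y : ℝ} (hR : 0 ≤ R) (hD : 0 ≤ D)
    (hg1 : |g1| ≤ 2 / 3 * R) (hg2 : |g2| ≤ 2 / 3 * R) (ha1 : |a1| ≤ 2 / 3 * R)
    (ha2 : |a2| ≤ 2 / 3 * R) (hv1 : |v1| ≤ R) (hv2 : |v2| ≤ R) (hy : |y| ≤ 1)
    (hg : |g1 - g2| ≤ 2 / 3 * D) (ha : |a1 - a2| ≤ 2 / 3 * D) (hv : |v1 - v2| ≤ D) :
    |(2 * g1 ^ 2 + 9 * g1 * v1 - 9 * (1 + 2 * y ^ 2) * a1 ^ 2 - 27 * y * a1 * v1)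
      - (2 * g2 ^ 2 + 9 * g2 * v2 - 9 * (1 + 2 * y ^ 2) * a2 ^ 2 - 27 * y * a2 * v2)|
      ≤ 74 * (R * D) := by
  have hRD : 0 ≤ R * D := by positivity
  have e : (2 * g1 ^ 2 + 9 * g1 * v1 - 9 * (1 + 2 * y ^ 2) * a1 ^ 2 - 27 * y * a1 * v1)
      - (2 * g2 ^ 2 + 9 * g2 * v2 - 9 * (1 + 2 * y ^ 2) * a2 ^ 2 - 27 * y * a2 * v2)
      = 2 * ((g1 - g2) * (g1 + g2)) + 9 * ((g1 - g2) * v1) + 9 * (g2 * (v1 - v2))
        - 9 * (1 + 2 * y ^ 2) * ((a1 - a2) * (a1 + a2)) - 27 * (y * ((a1 - a2) * v1))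
        - 27 * (y * (a2 * (v1 - v2))) := by ring
  have b1 : |(g1 - g2) * (g1 + g2)| ≤ (2 / 3 * D) * (4 / 3 * R) := by
    rw [abs_mul]
    apply mul_le_mul hg _ (abs_nonneg _) (by positivity)
    calc |g1 + g2| ≤ |g1| + |g2| := abs_add_le _ _
      _ ≤ _ := by linarith
  have b2 : |(g1 - g2) * v1| ≤ (2 / 3 * D) * R := by
    rw [abs_mul]; exact mul_le_mul hg hv1 (abs_nonneg _) (by positivity)
  have b3 : |g2 * (v1 - v2)| ≤ (2 / 3 * R) * D := by
    rw [abs_mul]; exact mul_le_mul hg2 hv (abs_nonneg _) (by positivity)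
  have b4 : |(a1 - a2) * (a1 + a2)| ≤ (2 / 3 * D) * (4 / 3 * R) := by
    rw [abs_mul]
    apply mul_le_mul ha _ (abs_nonneg _) (by positivity)
    calc |a1 + a2| ≤ |a1| + |a2| := abs_add_le _ _
      _ ≤ _ := by linarith
  have b5 : |(a1 - a2) * v1| ≤ (2 / 3 * D) * R := by
    rw [abs_mul]; exact mul_le_mul ha hv1 (abs_nonneg _) (by positivity)
  have b6 : |a2 * (v1 - v2)| ≤ (2 / 3 * R) * D := by
    rw [abs_mul]; exact mul_le_mul ha2 hv (abs_nonneg _) (by positivity)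
  have hy2 : y ^ 2 ≤ 1 := (sq_le_one_iff_abs_le_one y).2 hy
  have b4' : |9 * (1 + 2 * y ^ 2) * ((a1 - a2) * (a1 + a2))| ≤ 27 * ((2 / 3 * D) * (4 / 3 * R)) := by
    rw [abs_mul, abs_of_nonneg (by positivity : 0 ≤ 9 * (1 + 2 * y ^ 2))]
    exact mul_le_mul (by linarith) b4 (abs_nonneg _) (by norm_num)
  have b5' : |y * ((a1 - a2) * v1)| ≤ (2 / 3 * D) * R := by
    rw [abs_mul]
    calc _ ≤ 1 * ((2 / 3 * D) * R) := mul_le_mul hy b5 (abs_nonneg _) (by norm_num)
      _ = _ := by ring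
  have b6' : |y * (a2 * (v1 - v2))| ≤ (2 / 3 * R) * D := by
    rw [abs_mul]
    calc _ ≤ 1 * ((2 / 3 * R) * D) := mul_le_mul hy b6 (abs_nonneg _) (by norm_num)
      _ = _ := by ring
  rw [e]
  rw [abs_le] at b1 b2 b3 b4' b5' b6' ⊢
  constructor <;> nlinarith [b1.1, b1.2, b2.1, b2.2, b3.1, b3.2, b4'.1, b4'.2, b5'.1, b5'.2,
    b6'.1, b6'.2]

lemma TE_diff {v w : XX} (hv : Good v) (hw : Good w) (hvR : ‖v‖ ≤ RR) (hwR : ‖w‖ ≤ RR)
    {y : ℝ} (hy : y ∈ Icc (-1 : ℝ) 1) : |TE v y - TE w y| ≤ (1 / 3) * ‖v - w‖ := by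
  have hvw := hv.sub hw
  set D := ‖v - w‖ with hD
  have hD0 : 0 ≤ D := norm_nonneg _
  have hR0 : 0 ≤ RR := by unfold RR; positivity
  have hRval : RR = 9 / 40000 := by unfold RR eps; norm_num
  -- quadratic part
  have hq : ∀ s ∈ Icc (-1 : ℝ) 1,
      |(NE v s - NE w s) - 4 * gE (v - w) s| ≤ 74 * (RR * D) := by
    intro s hs
    have hs' : |s| ≤ 1 := abs_le.2 hs
    have hb := quad_bound (R := RR) (D := D) (g1 := gE v s) (g2 := gE w s) (a1 := aE v s)
      (a2 := aE w s) (v1 := vE v s) (v2 := vE w s) (y := s) hR0 hD0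
      ((hv.g_bound hs').trans (by nlinarith)) ((hw.g_bound hs').trans (by nlinarith))
      ((hv.a_bound hs').trans (by nlinarith)) ((hw.a_bound hs').trans (by nlinarith))
      ((vE_le v s).trans hvR) ((vE_le w s).trans hwR) hs'
      (by rw [← gE_sub]; exact hvw.g_bound hs') (by rw [← aE_sub]; exact hvw.a_bound hs')
      (by rw [← vE_sub]; exact vE_le _ _)
    have e : (NE v s - NE w s) - 4 * gE (v - w) s
        = (2 * (gE v s) ^ 2 + 9 * gE v s * vE v s - 9 * (1 + 2 * s ^ 2) * (aE v s) ^ 2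
            - 27 * s * aE v s * vE v s)
          - (2 * (gE w s) ^ 2 + 9 * gE w s * vE w s - 9 * (1 + 2 * s ^ 2) * (aE w s) ^ 2
            - 27 * s * aE w s * vE w s) := by
      unfold NE
      rw [gE_sub]
      ring
    rw [e]
    exact hb
  have hosc : ∀ s ∈ Icc (-1 : ℝ) 1,
      |(NE v s - NE w s) - (NE v y - NE w y)| ≤ 8 / 3 * D + 148 * (RR * D) := by
    intro s hs
    have h1 := hq s hs
    have h2 := hq y hy
    have h3 := hvw.g_osc (y := s) (z := y) (abs_le.2 hs) (abs_le.2 hy)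
    rw [abs_le] at h1 h2 h3 ⊢
    constructor <;> linarith [h1.1, h1.2, h2.1, h2.2, h3.1, h3.2]
  have hm := mean_bound (f := fun s => NE v s - NE w s) ((NE_cont v).sub (NE_cont w)) hosc
  have e : TE v y - TE w y = (1 / 9) * ((1 / 2) * (∫ s in (-1 : ℝ)..1, (NE v s - NE w s))
      - (NE v y - NE w y)) := by
    rw [intervalIntegral.integral_sub ((NE_cont v).intervalIntegrable _ _)
      ((NE_cont w).intervalIntegrable _ _)]
    unfold TE mE
    ring
  rw [e, abs_mul]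
  have h4 : |(1 / 9 : ℝ)| = 1 / 9 := by norm_num
  rw [h4]
  rw [hRval] at hm
  linarith

lemma TT_diff {v w : XX} (hv : Good v) (hw : Good w) (hvR : ‖v‖ ≤ RR) (hwR : ‖w‖ ≤ RR) :
    ‖TT v - TT w‖ ≤ (1 / 3) * ‖v - w‖ := by
  rw [ContinuousMap.norm_le _ (by positivity)]
  intro y
  have := TE_diff hv hw hvR hwR y.2
  simpa [TT] using this

lemma good_zero : Good (0 : XX) := by
  refine ⟨fun y => by simp [vE, Set.IccExtend], by simp [vE, Set.IccExtend]⟩

lemma vE_zero (y : ℝ) : vE (0 : XX) y = 0 := by simp [vE, Set.IccExtend]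
lemma aE_zero (y : ℝ) : aE (0 : XX) y = 0 := by simp [aE, M1, M2, vE_zero]
lemma gE_zero' (y : ℝ) : gE (0 : XX) y = 0 := by simp [gE, aE_zero]

lemma TT_zero : ‖TT 0‖ ≤ 40 / 27 * eps ^ 2 := by
  rw [ContinuousMap.norm_le _ (by positivity)]
  intro y
  have h1 : ∀ s, NE 0 s = eps ^ 2 * (20 * s ^ 2 - 9) := by
    intro s; simp [NE, gE_zero', aE_zero, vE_zero]
  have h2 : mE 0 = eps ^ 2 * (-7 / 3) := by
    unfold mE
    simp only [h1]
    rw [intervalIntegral.integral_const_mul, intervalIntegral.integral_sub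
      (Continuous.intervalIntegrable (by fun_prop) _ _)
      (Continuous.intervalIntegrable (by fun_prop) _ _), intervalIntegral.integral_const_mul,
      integral_pow]
    simp
    ring
  have h3 : (TT 0) y = (1 / 9) * (mE 0 - NE 0 y) := rfl
  rw [h3, h1, h2, Real.norm_eq_abs]
  have hy := y.2
  have hy2 : (y : ℝ) ^ 2 ≤ 1 := by nlinarith [hy.1, hy.2]
  have hy3 : 0 ≤ (y : ℝ) ^ 2 := sq_nonneg _
  have he : 0 ≤ eps ^ 2 := by positivity
  rw [abs_le]
  constructor <;> nlinarith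

/-- The complete metric space on which the contraction acts. -/
def SS : Set XX := {v | Good v ∧ ‖v‖ ≤ RR}

lemma RR_nonneg : 0 ≤ RR := by unfold RR; positivity

lemma SS_closed : IsClosed SS := by
  have h1 : SS = (⋂ y : ℝ, {v : XX | vE v (-y) = vE v y}) ∩
      ({v : XX | ∫ s in (-1 : ℝ)..1, vE v s = 0} ∩ {v : XX | ‖v‖ ≤ RR}) := by
    ext v
    simp only [SS, mem_ofPred_eq, mem_inter_iff, mem_iInter]
    constructor
    · rintro ⟨⟨h1, h2⟩, h3⟩
      exact ⟨h1, h2, h3⟩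
    · rintro ⟨h1, h2, h3⟩
      exact ⟨⟨h1, h2⟩, h3⟩
  have hc : ∀ y : ℝ, Continuous fun v : XX => vE v y := by
    intro y
    exact continuous_eval_const _
  rw [h1]
  refine IsClosed.inter (isClosed_iInter fun y => isClosed_eq (hc _) (hc _)) (IsClosed.inter ?_ ?_)
  · refine isClosed_eq ?_ continuous_const
    refine intervalIntegral.continuous_parametric_intervalIntegral_of_continuous' ?_ _ _
    have : Continuous fun p : XX × ℝ => p.1 (projIcc (-1 : ℝ) 1 h11 p.2) := by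
      have h2 : Continuous fun p : XX × ℝ => (p.1, projIcc (-1 : ℝ) 1 h11 p.2) := by
        have := continuous_projIcc (h := h11) (a := (-1 : ℝ)) (b := 1)
        fun_prop
      exact continuous_eval.comp h2
    exact this
  · exact isClosed_le continuous_norm continuous_const

lemma SS_maps {v : XX} (hv : v ∈ SS) : TT v ∈ SS := by
  refine ⟨hv.1.TT, ?_⟩
  have h1 := TT_diff hv.1 good_zero hv.2 (by simpa using RR_nonneg)
  rw [sub_zero] at h1
  have h2 := TT_zero
  have h3 : ‖TT v‖ ≤ ‖TT v - TT 0‖ + ‖TT 0‖ := by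
    have := norm_add_le (TT v - TT 0) (TT 0)
    simpa using this
  have h4 := hv.2
  have h5 : RR = 9 / 4 * eps ^ 2 := rfl
  have he : 0 ≤ eps ^ 2 := by positivity
  linarith

theorem exists_fixed : ∃ v : XX, Good v ∧ ‖v‖ ≤ RR ∧ TT v = v := by
  haveI : CompleteSpace SS := SS_closed.isComplete.completeSpace_coe
  haveI : Nonempty SS := ⟨⟨0, good_zero, by simpa using RR_nonneg⟩⟩
  let f : SS → SS := fun v => ⟨TT v.1, SS_maps v.2⟩
  have hf : ContractingWith (1 / 3 : NNReal) f := by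
    refine ⟨by rw [← NNReal.coe_lt_coe]; norm_num, LipschitzWith.of_dist_le_mul ?_⟩
    intro v w
    have := TT_diff v.2.1 w.2.1 v.2.2 w.2.2
    rw [Subtype.dist_eq, dist_eq_norm, Subtype.dist_eq, dist_eq_norm]
    simpa using this
  refine ⟨(hf.fixedPoint f).1, (hf.fixedPoint f).2.1, (hf.fixedPoint f).2.2, ?_⟩
  have := hf.fixedPoint_isFixedPt
  exact congrArg Subtype.val this

/-- The data `g, a = g', v` solving the profile equation. -/
structure IsProfile (g a v : ℝ → ℝ) (m : ℝ) : Prop where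
  a_cont : Continuous a
  v_cont : Continuous v
  g_deriv : ∀ y, HasDerivAt g (a y) y
  a_deriv : ∀ y, |y| < 1 → HasDerivAt a ((v y + 2 * y * a y) / (1 - y ^ 2)) y
  g_even : ∀ y, g (-y) = g y
  a_odd : ∀ y, a (-y) = - a y
  v_even : ∀ y, v (-y) = v y
  g_zero : g 0 = 0
  end1 : v 1 + 2 * a 1 = 0
  g_le : ∀ y, |y| ≤ 1 → |g y| ≤ 3 / 2 * eps ^ 2
  a_le : ∀ y, |y| ≤ 1 → |a y| ≤ 3 / 2 * eps ^ 2
  v_le : ∀ y, |y| ≤ 1 → |v y| ≤ 9 / 4 * eps ^ 2
  ode : ∀ y, |y| ≤ 1 → 9 * v y + 4 * g y + 2 * (g y) ^ 2 + 9 * g y * v y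
    - 9 * (1 + 2 * y ^ 2) * (a y) ^ 2 - 27 * y * a y * v y + eps ^ 2 * (20 * y ^ 2 - 9) = m

theorem exists_profile : ∃ (g a v : ℝ → ℝ) (m : ℝ), IsProfile g a v m := by
  obtain ⟨v, hv, hR, hf⟩ := exists_fixed
  have hRR : RR = 9 / 4 * eps ^ 2 := rfl
  refine ⟨gE v, aE v, vE v, mE v, ?_⟩
  refine
    { a_cont := aE_cont v
      v_cont := vE_cont v
      g_deriv := gE_hasDeriv v
      a_deriv := fun y hy => hv.a_hasDeriv hy
      g_even := hv.g_even
      a_odd := hv.a_odd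
      v_even := hv.even
      g_zero := gE_zero v
      end1 := hv.end1
      g_le := fun y hy => (hv.g_bound hy).trans (by linarith)
      a_le := fun y hy => (hv.a_bound hy).trans (by linarith)
      v_le := fun y _ => (vE_le v y).trans (by linarith)
      ode := ?_ }
  intro y hy
  have hy' : y ∈ Icc (-1 : ℝ) 1 := abs_le.1 hy
  have h1 : vE v y = TE v y := by
    conv_lhs => rw [← hf]
    exact vE_TT v hy'
  unfold TE NE at h1
  linarith

end Pool.Agent.Lib_MP_17e2c6_gt
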