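import Mathlib

open scoped RealInnerProductSpace
open Set MeasureTheory

namespace Pool.Agent.Lib_MP_17e2c6_gt

variable {E : Type*} [NormedAddCommGroup E] [InnerProductSpace ℝ E]

/-- A twice differentiable, strictly convex (away from rays) support function. -/
structure SmoothSupport (h : E → ℝ) (G : E → E) (H : E → E →L[ℝ] E) : Prop where
  grad : ∀ x, x ≠ 0 → HasFDerivAt h (innerSL ℝ (G x)) x
  hess : ∀ x, x ≠ 0 → HasFDerivAt G (H x) x
  euler : ∀ x, x ≠ 0 → ⟪G x, x⟫ = h x
  hom : ∀ t : ℝ, 0 ≤ t → ∀ x, h (t • x) = t * h x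
  symm : ∀ x, x ≠ 0 → ∀ a b, ⟪H x a, b⟫ = ⟪a, H x b⟫
  null : ∀ x, x ≠ 0 → H x x = 0
  pos : ∀ x, x ≠ 0 → ∀ a, ⟪x, a⟫ = 0 → a ≠ 0 → 0 < ⟪H x a, a⟫
  hpos : ∀ x, x ≠ 0 → 0 < h x

namespace SmoothSupport

variable {h : E → ℝ} {G : E → E} {H : E → E →L[ℝ] E} (hS : SmoothSupport h G H)
include hS

lemma zero : h 0 = 0 := by
  have := hS.hom 0 le_rfl 0
  simpa using this

lemma nonneg (x : E) : 0 ≤ h x := by
  by_cases hx : x = 0
  · rw [hx, hS.zero]
  · exact (hS.hpos x hx).le

lemma pos_of {x : E} (hx : x ≠ 0) {a : E} (ha : ∀ t : ℝ, a ≠ t • x) : 0 < ⟪H x a, a⟫ := by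
  set t := ⟪x, a⟫ / ‖x‖ ^ 2 with ht
  have hn : ‖x‖ ≠ 0 := norm_ne_zero_iff.2 hx
  set z := a - t • x with hz
  have hz0 : z ≠ 0 := fun h0 => ha t (sub_eq_zero.1 h0)
  have hxz : ⟪x, z⟫ = 0 := by
    rw [hz, inner_sub_right, inner_smul_right, real_inner_self_eq_norm_sq, ht]
    field_simp
    ring
  have hp := hS.pos x hx z hxz hz0
  have e1 : H x z = H x a := by
    rw [hz, map_sub, map_smul, hS.null x hx]; simp
  have e2 : ⟪H x a, z⟫ = ⟪H x a, a⟫ := by
    rw [hz, inner_sub_right, inner_smul_right, hS.symm x hx a x, hS.null x hx]; simp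
  rwa [e1, e2] at hp

lemma psd {x : E} (hx : x ≠ 0) (a : E) : 0 ≤ ⟪H x a, a⟫ := by
  by_cases ha : ∀ t : ℝ, a ≠ t • x
  · exact (hS.pos_of hx ha).le
  · push Not at ha
    obtain ⟨t, ht⟩ := ha
    rw [ht, map_smul, hS.null x hx]; simp

/-- derivative of the directional derivative along a segment -/
lemma hasDerivAt_line (x d : E) {t : ℝ} (ht : x + t • d ≠ 0) :
    HasDerivAt (fun t : ℝ => ⟪G (x + t • d), d⟫) ⟪H (x + t • d) d, d⟫ t := by
  have h1 : HasDerivAt (fun t : ℝ => x + t • d) d t := by
    have := ((hasDerivAt_id t).smul_const d).const_add x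
    simpa using this
  have h2 := (hS.hess _ ht).comp_hasDerivAt t h1
  have h3 := h2.inner ℝ (hasDerivAt_const t d)
  simpa using h3

lemma hasDerivAt_line' (x d : E) {t : ℝ} (ht : x + t • d ≠ 0) :
    HasDerivAt (fun t : ℝ => h (x + t • d)) ⟪G (x + t • d), d⟫ t := by
  have h1 : HasDerivAt (fun t : ℝ => x + t • d) d t := by
    have := ((hasDerivAt_id t).smul_const d).const_add x
    simpa using this
  have h2 : HasDerivAt (h ∘ fun t : ℝ => x + t • d) ((innerSL ℝ (G (x + t • d))) d) t :=
    (hS.grad _ ht).comp_hasDerivAt t h1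
  exact h2

lemma support {x : E} (hx : x ≠ 0) (y : E) : ⟪G x, y⟫ ≤ h y := by
  by_cases hseg : ∀ t ∈ Icc (0 : ℝ) 1, x + t • (y - x) ≠ 0
  · set d := y - x with hd
    have hmono : MonotoneOn (fun t : ℝ => ⟪G (x + t • d), d⟫) (Icc 0 1) := by
      apply monotoneOn_of_deriv_nonneg (convex_Icc 0 1)
      · intro t ht
        exact (hS.hasDerivAt_line x d (hseg t ht)).continuousAt.continuousWithinAt
      · intro t ht
        rw [interior_Icc] at ht
        exact (hS.hasDerivAt_line x d
          (hseg t ⟨ht.1.le, ht.2.le⟩)).differentiableAt.differentiableWithinAt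
      · intro t ht
        rw [interior_Icc] at ht
        rw [(hS.hasDerivAt_line x d (hseg t ⟨ht.1.le, ht.2.le⟩)).deriv]
        exact hS.psd (hseg t ⟨ht.1.le, ht.2.le⟩) d
    obtain ⟨c, hc, hc2⟩ := exists_hasDerivAt_eq_slope (fun t : ℝ => h (x + t • d))
      (fun t => ⟪G (x + t • d), d⟫) (zero_lt_one)
      (fun t ht => (hS.hasDerivAt_line' x d (hseg t ht)).continuousAt.continuousWithinAt)
      (fun t ht => hS.hasDerivAt_line' x d (hseg t ⟨ht.1.le, ht.2.le⟩))
    have h1 := hmono (left_mem_Icc.2 zero_le_one) ⟨hc.1.le, hc.2.le⟩ hc.1.le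
    simp only at h1 hc2
    rw [hc2] at h1
    simp only [zero_smul, add_zero, one_smul, sub_zero, div_one] at h1
    have e : x + d = y := by rw [hd]; abel
    rw [e] at h1
    have h2 : ⟪G x, d⟫ = ⟪G x, y⟫ - h x := by
      rw [hd, inner_sub_right, hS.euler x hx]
    linarith
  · push Not at hseg
    obtain ⟨t, ht, h0⟩ := hseg
    have ht0 : t ≠ 0 := by
      rintro rfl
      simp at h0
      exact hx h0
    have htp : 0 < t := lt_of_le_of_ne ht.1 (Ne.symm ht0)
    have e : y = (-((1 - t) / t)) • x := by
      have h1 : t • y = (-(1 - t)) • x := by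
        have : x + t • (y - x) = t • y + (1 - t) • x := by module
        rw [this] at h0
        rw [neg_smul]
        exact eq_neg_of_add_eq_zero_left h0
      have h2 : y = t⁻¹ • (t • y) := by rw [smul_smul, inv_mul_cancel₀ ht0, one_smul]
      rw [h2, h1, smul_smul]
      congr 1
      field_simp
    have h3 : ⟪G x, y⟫ ≤ 0 := by
      rw [e, inner_smul_right, hS.euler x hx]
      have : 0 ≤ (1 - t) / t := div_nonneg (by linarith [ht.2]) htp.le
      nlinarith [hS.hpos x hx]
    exact h3.trans (hS.nonneg y)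

lemma subadd (a b : E) : h (a + b) ≤ h a + h b := by
  by_cases hab : a + b = 0
  · rw [hab, hS.zero]
    exact add_nonneg (hS.nonneg a) (hS.nonneg b)
  · rw [← hS.euler _ hab, inner_add_right]
    exact add_le_add (hS.support hab a) (hS.support hab b)

end SmoothSupport

/-- The body with support function `h`. -/
def body (h : E → ℝ) : Set E := {z | ∀ x, ⟪z, x⟫ ≤ h x}

lemma body_convex (h : E → ℝ) : Convex ℝ (body h) := by
  intro z hz w hw a b ha hb hab x
  rw [inner_add_left, inner_smul_left, inner_smul_left]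
  simp only [conj_trivial]
  have h1 := mul_le_mul_of_nonneg_left (hz x) ha
  have h2 := mul_le_mul_of_nonneg_left (hw x) hb
  have : a * h x + b * h x = h x := by rw [← add_mul, hab, one_mul]
  linarith

lemma body_closed (h : E → ℝ) : IsClosed (body h) := by
  have : body h = ⋂ x : E, {z | ⟪z, x⟫ ≤ h x} := by
    ext z; simp [body]
  rw [this]
  exact isClosed_iInter fun x => isClosed_le (by fun_prop) continuous_const

lemma SmoothSupport.G_mem {h : E → ℝ} {G : E → E} {H : E → E →L[ℝ] E}
    (hS : SmoothSupport h G H) {x : E} (hx : x ≠ 0) : G x ∈ body h := fun y => hS.support hx y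

section shadow

variable [FiniteDimensional ℝ E] [MeasurableSpace E] [BorelSpace E]

/-- the compressed Hessian -/
noncomputable def fH (V : Submodule ℝ E) (T : E →L[ℝ] E) : V →L[ℝ] V :=
  (V.orthogonalProjectionOnto.comp T).comp V.subtypeL

theorem volume_shadow {h : E → ℝ} {G : E → E} {H : E → E →L[ℝ] E}
    (hS : SmoothSupport h G H) (V : Submodule ℝ E) (u : E) (hu : u ∈ Vᗮ) (hu1 : ‖u‖ = 1)
    (L : Set V) (hconv : Convex ℝ L)
    (hsub : ∀ w : V, V.orthogonalProjectionOnto (G ((w : E) + u)) ∈ L)
    (hsup : ∀ l ∈ L, ∀ w : V, ⟪(l : E), w⟫ ≤ h w) :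
    volume L = ∫⁻ w : V, ENNReal.ofReal |(fH V (H ((w : E) + u))).det| := by
  have hperp : ∀ w : V, ⟪(w : E), u⟫ = 0 := fun w => hu w w.2
  have huu : ⟪u, u⟫ = 1 := by rw [real_inner_self_eq_norm_sq, hu1]; norm_num
  have hne : ∀ w : V, (w : E) + u ≠ 0 := by
    intro w h0
    have h1 : ⟪(w : E) + u, u⟫ = 0 := by rw [h0, inner_zero_left]
    rw [inner_add_left, hperp, huu] at h1
    norm_num at h1
  set P := V.orthogonalProjectionOnto with hP
  have hPin : ∀ (z : E) (w : V), ⟪P z, w⟫ = ⟪z, (w : E)⟫ := by
    intro z w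
    rw [hP, Submodule.inner_orthogonalProjectionOnto_eq_of_mem_right]
  set f : V → V := fun w => P (G ((w : E) + u)) with hf
  have hder : ∀ w : V, HasFDerivAt f (fH V (H ((w : E) + u))) w := by
    intro w
    have h1 : HasFDerivAt (fun w : V => (w : E) + u) V.subtypeL w :=
      (V.subtypeL.hasFDerivAt).add_const u
    have h2 := (hS.hess _ (hne w)).comp w h1
    exact (P.hasFDerivAt).comp w h2
  -- injectivity
  have hinj : Function.Injective f := by
    intro w1 w2 h12
    by_contra hne12
    set d : V := w1 - w2 with hd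
    have hd0 : (d : E) ≠ 0 := by
      simp only [ne_eq, ZeroMemClass.coe_eq_zero]
      exact sub_ne_zero.2 hne12
    have hline : ∀ t : ℝ, ((w2 : E) + u) + t • (d : E) ≠ 0 := by
      intro t
      have := hne (w2 + t • d)
      intro h0
      apply this
      rw [← h0]
      push_cast
      abel
    have hmono : StrictMonoOn (fun t : ℝ => ⟪G (((w2 : E) + u) + t • (d : E)), (d : E)⟫)
        (Icc 0 1) := by
      apply strictMonoOn_of_deriv_pos (convex_Icc 0 1)
      · intro t _
        exact (hS.hasDerivAt_line _ _ (hline t)).continuousAt.continuousWithinAt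
      · intro t _
        rw [(hS.hasDerivAt_line _ _ (hline t)).deriv]
        apply hS.pos_of (hline t)
        intro c hc
        have h1 : ⟪(d : E), u⟫ = c := by
          have h2 : ⟪c • (((w2 : E) + u) + t • (d : E)), u⟫ = c := by
            rw [inner_smul_left, inner_add_left, inner_add_left, inner_smul_left, hperp, hperp,
              huu]
            simp
          rwa [← hc] at h2
        rw [hperp] at h1
        rw [← h1, zero_smul] at hc
        exact hd0 hc
    have h3 := hmono (left_mem_Icc.2 zero_le_one) (right_mem_Icc.2 zero_le_one) zero_lt_one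
    simp only [zero_smul, add_zero, one_smul] at h3
    have e : ((w2 : E) + u) + (d : E) = (w1 : E) + u := by rw [hd]; push_cast; abel
    rw [e, ← hPin, ← hPin] at h3
    have h4 : P (G ((w1 : E) + u)) = P (G ((w2 : E) + u)) := h12
    rw [h4] at h3
    exact lt_irrefl _ h3
  -- the interior is in the image
  have hcont : Continuous fun w : V => h ((w : E) + u) := by
    rw [continuous_iff_continuousAt]
    intro w
    have h1 : HasFDerivAt (fun w : V => (w : E) + u) V.subtypeL w :=
      (V.subtypeL.hasFDerivAt).add_const u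
    exact ((hS.grad _ (hne w)).comp w h1).continuousAt
  have hint : interior L ⊆ range f := by
    intro z hz
    obtain ⟨δ, hδ, hball⟩ := Metric.isOpen_iff.1 isOpen_interior z hz
    have hδ2 : 0 < δ / 2 := by positivity
    have hineq : ∀ w : V, ⟪(z : E), w⟫ + δ / 2 * ‖w‖ ≤ h w := by
      intro w
      by_cases hw : w = 0
      · rw [hw]; simp [hS.zero]
      · have hwn : ‖w‖ ≠ 0 := norm_ne_zero_iff.2 hw
        have hmem : z + (δ / 2 / ‖w‖) • w ∈ L := by
          apply interior_subset
          apply hball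
          rw [Metric.mem_ball, dist_eq_norm, add_sub_cancel_left, norm_smul, norm_div,
            Real.norm_eq_abs, norm_norm, abs_of_pos hδ2]
          field_simp
          linarith
        have h1 := hsup _ hmem w
        have h2 : ⟪((z + (δ / 2 / ‖w‖) • w : V) : E), (w : E)⟫
            = ⟪(z : E), w⟫ + δ / 2 * ‖w‖ := by
          push_cast
          rw [inner_add_left, inner_smul_left, real_inner_self_eq_norm_sq]
          simp only [conj_trivial, Submodule.coe_norm]
          field_simp
        rw [h2] at h1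
        exact h1
    set k : V → ℝ := fun w => h ((w : E) + u) - ⟪(z : E), w⟫ with hk
    have hkc : Continuous k := by
      apply hcont.sub
      fun_prop
    have hklow : ∀ w : V, δ / 2 * ‖w‖ - h (-u) ≤ k w := by
      intro w
      have h1 := hS.subadd ((w : E) + u) (-u)
      rw [add_neg_cancel_right] at h1
      have h2 := hineq w
      simp only [hk]
      linarith
    have htend : Filter.Tendsto k (Filter.cocompact V) Filter.atTop := by
      apply Filter.tendsto_atTop_mono hklow
      apply Filter.tendsto_atTop_add_const_right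
      apply Filter.Tendsto.const_mul_atTop hδ2
      exact tendsto_norm_cocompact_atTop
    obtain ⟨w0, hw0⟩ := hkc.exists_forall_le htend
    refine ⟨w0, ?_⟩
    have hmin : IsLocalMin k w0 := Filter.Eventually.of_forall hw0
    have hkd : HasFDerivAt k ((innerSL ℝ (G ((w0 : E) + u))).comp V.subtypeL
        - (innerSL ℝ (z : E)).comp V.subtypeL) w0 := by
      have h1 : HasFDerivAt (fun w : V => (w : E) + u) V.subtypeL w0 :=
        (V.subtypeL.hasFDerivAt).add_const u
      have h2 := (hS.grad _ (hne w0)).comp w0 h1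
      have h3 : HasFDerivAt (fun w : V => ⟪(z : E), (w : E)⟫)
          ((innerSL ℝ (z : E)).comp V.subtypeL) w0 :=
        ((innerSL ℝ (z : E)).comp V.subtypeL).hasFDerivAt
      exact h2.sub h3
    have h0 := hmin.hasFDerivAt_eq_zero hkd
    apply ext_inner_right ℝ
    intro w
    have h5 := congrArg (fun T : V →L[ℝ] ℝ => T w) h0
    simp only [sub_apply, ContinuousLinearMap.comp_apply, Submodule.subtypeL_apply,
      innerSL_apply_apply, zero_apply] at h5
    rw [hf]
    simp only
    rw [hPin]
    have h6 : ⟪z, w⟫ = ⟪(z : E), (w : E)⟫ := rfl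
    rw [h6]
    linarith
  have hrange : range f ⊆ L := by
    rintro _ ⟨w, rfl⟩
    exact hsub w
  have hvol : volume L = volume (range f) := by
    apply le_antisymm
    · calc volume L ≤ volume (interior L ∪ frontier L) := by
            apply measure_mono
            rw [← closure_eq_interior_union_frontier]
            exact subset_closure
        _ ≤ volume (interior L) + volume (frontier L) := measure_union_le _ _
        _ = volume (interior L) := by rw [hconv.addHaar_frontier volume, add_zero]
        _ ≤ volume (range f) := measure_mono hint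
    · exact measure_mono hrange
  rw [hvol, ← image_univ, ← lintegral_abs_det_fderiv_eq_addHaar_image volume MeasurableSet.univ
    (fun w _ => (hder w).hasFDerivWithinAt) hinj.injOn]
  simp

end shadow

end Pool.Agent.Lib_MP_17e2c6_gt
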