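import Pool.Agent.Lib_MP_17e2c6_gt.Eigen
import Pool.Agent.Lib_MP_17e2c6_gt.Defs

open scoped RealInnerProductSpace
open Set MeasureTheory

namespace Pool.Agent.Lib_MP_17e2c6_gt

section
variable {g a v : ℝ → ℝ} {m : ℝ} (hP : IsProfile g a v m)
include hP

lemma phi_pos {y : ℝ} (hy : |y| ≤ 1) : 98 / 100 ≤ phi g y := by
  have hg := hP.g_le _ hy
  have he : eps = 1 / 100 := rfl
  unfold phi
  have h1 : |eps * y| ≤ 1 / 100 := by
    rw [abs_mul]
    have : |eps| = 1 / 100 := by rw [he]; norm_num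
    rw [this]; linarith
  rw [he] at hg
  rw [abs_le] at hg h1
  linarith [hg.1, h1.1]

lemma phi_le {y : ℝ} (hy : |y| ≤ 1) : phi g y ≤ 102 / 100 := by
  have hg := hP.g_le _ hy
  have he : eps = 1 / 100 := rfl
  unfold phi
  have h1 : |eps * y| ≤ 1 / 100 := by
    rw [abs_mul]
    have : |eps| = 1 / 100 := by rw [he]; norm_num
    rw [this]; linarith
  rw [he] at hg
  rw [abs_le] at hg h1
  linarith [hg.2, h1.2]

omit hP in
lemma yy_smul {t : ℝ} (ht : 0 < t) (x : E5) : yy (t • x) = yy x := by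
  by_cases hx : x = 0
  · rw [hx, smul_zero]
  have hn : ‖x‖ ≠ 0 := norm_ne_zero_iff.2 hx
  unfold yy F3
  rw [cm_smul_left, cm_smul_right, inner_smul_left, inner_smul_left, inner_smul_right, norm_smul,
    Real.norm_eq_abs, abs_of_pos ht]
  simp only [conj_trivial]
  field_simp

lemma smooth_hh : SmoothSupport (hh g) (GG g a) (HH g a v) where
  grad := fun x hx => hasFDerivAt_hh hP hx
  hess := fun x hx => hasFDerivAt_GG hP hx
  euler := fun x hx => by
    have hn : ‖x‖ ≠ 0 := norm_ne_zero_iff.2 hx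
    unfold GG hh
    rw [inner_add_left, inner_smul_left, inner_smul_left, real_inner_comm x (Yv x), inner_x_Y hx,
      real_inner_self_eq_norm_sq]
    simp only [conj_trivial]
    field_simp
    ring
  hom := fun t ht x => by
    rcases ht.eq_or_lt with h | h
    · rw [← h, zero_smul]; simp [hh]
    · unfold hh
      rw [yy_smul h, norm_smul, Real.norm_eq_abs, abs_of_pos h]; ring
  symm := fun x hx a' b' => HH_symm g a v hx a' b'
  null := fun x hx => HH_null g a v hx
  pos := fun x hx ξ h hξ => by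
    have := HH_pos_perp hP hx h
    have h2 : 0 < (1 / 2) * (‖ξ‖ ^ 2 / ‖x‖) := by
      have := norm_pos_iff.2 hx
      have := norm_pos_iff.2 hξ
      positivity
    linarith
  hpos := fun x hx => by
    unfold hh
    have := phi_pos hP (yy_abs_le hx)
    have := norm_pos_iff.2 hx
    positivity

/-- the Hessian of the norm -/
noncomputable def NN (x : E5) : E5 →L[ℝ] E5 :=
  (1 / ‖x‖) • ContinuousLinearMap.id ℝ E5 - (1 / ‖x‖ ^ 3) • (innerSL ℝ x).smulRight x

omit hP in
lemma NN_apply (x ξ : E5) : NN x ξ = (1 / ‖x‖) • ξ - (1 / ‖x‖ ^ 3) • (⟪x, ξ⟫ • x) := rfl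

omit hP in
lemma hasFDerivAt_unit {x : E5} (hx : x ≠ 0) :
    HasFDerivAt (fun x : E5 => (1 / ‖x‖) • x) (NN x) x := by
  have hn : ‖x‖ ≠ 0 := norm_ne_zero_iff.2 hx
  have h := (hasFDerivAt_inv_pow_norm hx 0).smul (hasFDerivAt_id x)
  have e : (fun x : E5 => (‖x‖ ^ (0 + 1))⁻¹ • id x) = fun x : E5 => (1 / ‖x‖) • x := by
    ext1 z; simp
  have h' : HasFDerivAt (fun x : E5 => (‖x‖ ^ (0 + 1))⁻¹ • id x) _ x := h
  rw [e] at h'
  refine h'.congr_fderiv ?_
  ext1 ξ
  apply ext_inner_right ℝ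
  intro η
  simp only [NN, add_apply, sub_apply, smul_apply, ContinuousLinearMap.smulRight_apply,
    innerSL_apply_apply, inner_add_left, inner_sub_left, inner_smul_left,
    ContinuousLinearMap.id_apply, id, smul_eq_mul]
  simp
  field_simp
  ring

noncomputable def hhe (g : ℝ → ℝ) (ε : ℝ) (x : E5) : ℝ := hh g x + ε * ‖x‖
noncomputable def GGe (g a : ℝ → ℝ) (ε : ℝ) (x : E5) : E5 := GG g a x + ε • ((1 / ‖x‖) • x)
noncomputable def HHe (g a v : ℝ → ℝ) (ε : ℝ) (x : E5) : E5 →L[ℝ] E5 := HH g a v x + ε • NN x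

lemma smooth_hhe {ε : ℝ} (hε : 0 < ε) : SmoothSupport (hhe g ε) (GGe g a ε) (HHe g a v ε) where
  grad := fun x hx => by
    have h := (hasFDerivAt_hh hP hx).add ((hasFDerivAt_norm' hx).const_mul ε)
    refine h.congr_fderiv ?_
    ext1 ξ
    simp only [GGe, add_apply, smul_apply, innerSL_apply_apply, inner_add_left, inner_smul_left,
      smul_eq_mul, conj_trivial]
  hess := fun x hx => (hasFDerivAt_GG hP hx).add ((hasFDerivAt_unit hx).const_smul ε)
  euler := fun x hx => by
    have hn : ‖x‖ ≠ 0 := norm_ne_zero_iff.2 hx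
    unfold GGe hhe
    rw [inner_add_left, (smooth_hh hP).euler x hx, inner_smul_left, inner_smul_left,
      real_inner_self_eq_norm_sq]
    simp only [conj_trivial]
    field_simp
  hom := fun t ht x => by
    unfold hhe
    rw [(smooth_hh hP).hom t ht, norm_smul, Real.norm_eq_abs, abs_of_nonneg ht]; ring
  symm := fun x hx a' b' => by
    have h1 := HH_symm g a v hx a' b'
    simp only [HHe, add_apply, smul_apply, NN_apply, inner_add_left, inner_add_right,
      inner_smul_left, inner_smul_right, inner_sub_left, inner_sub_right, conj_trivial]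
    rw [h1, real_inner_comm a' x]
    ring
  null := fun x hx => by
    have hn : ‖x‖ ≠ 0 := norm_ne_zero_iff.2 hx
    simp only [HHe, add_apply, smul_apply, NN_apply, HH_null g a v hx,
      real_inner_self_eq_norm_sq, smul_smul]
    rw [zero_add, ← sub_smul]
    have : 1 / ‖x‖ - 1 / ‖x‖ ^ 3 * ‖x‖ ^ 2 = 0 := by field_simp; ring
    rw [this, zero_smul, smul_zero]
  pos := fun x hx ξ h hξ => by
    have h1 := (smooth_hh hP).pos x hx ξ h hξ
    simp only [HHe, add_apply, smul_apply, NN_apply, h, zero_smul, smul_zero, sub_zero,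
      inner_add_left, inner_smul_left, conj_trivial, real_inner_self_eq_norm_sq]
    have := norm_pos_iff.2 hx
    have := norm_pos_iff.2 hξ
    positivity
  hpos := fun x hx => by
    have h1 := (smooth_hh hP).hpos x hx
    have := norm_pos_iff.2 hx
    unfold hhe
    positivity

/-- the determinant of the compressed Hessian -/
lemma det_fH {ε : ℝ} (hε : 0 < ε) {u : E5} (hu1 : ‖u‖ = 1) {V : Submodule ℝ E5}
    (hV : V = (ℝ ∙ u)ᗮ) (w : V) :
    (fH V (HHe g a v ε ((w : E5) + u))).det =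
      ε ^ 4 * (1 / ‖(w : E5) + u‖ ^ 6)
      + ε ^ 3 * (c1 (HH g a v ((w : E5) + u)) / ‖(w : E5) + u‖ ^ 5)
      + ε ^ 2 * (c2 (HH g a v ((w : E5) + u)) / ‖(w : E5) + u‖ ^ 4)
      + ε * (c3 (HH g a v ((w : E5) + u)) / ‖(w : E5) + u‖ ^ 3)
      + c4 (HH g a v ((w : E5) + u)) / ‖(w : E5) + u‖ ^ 2 := by
  have huu : ⟪u, u⟫ = 1 := by rw [real_inner_self_eq_norm_sq, hu1]; norm_num
  have huV : u ∈ Vᗮ := by
    rw [hV, Submodule.orthogonal_orthogonal]
    exact Submodule.mem_span_singleton_self u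
  have hx : (w : E5) + u ≠ 0 := by
    intro h0
    have h1 : ⟪(w : E5) + u, u⟫ = 0 := by rw [h0, inner_zero_left]
    have h2 : ⟪(w : E5), u⟫ = 0 := huV w w.2
    rw [inner_add_left, h2, huu] at h1
    norm_num at h1
  have hS := smooth_hhe hP hε
  have h1 := det_compress u hu1 V hV w (HHe g a v ε ((w : E5) + u))
    (hS.symm _ hx) (hS.null _ hx) (ε / ‖(w : E5) + u‖ ^ 3)
  set x : E5 := (w : E5) + u with hxdef
  have hn : ‖x‖ ≠ 0 := norm_ne_zero_iff.2 hx
  have h2 : (HHe g a v ε x).toLinearMap + (ε / ‖x‖ ^ 3) • rk x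
      = (HH g a v x).toLinearMap + (ε / ‖x‖) • LinearMap.id := by
    apply LinearMap.ext
    intro ξ
    change HH g a v x ξ + ε • ((1 / ‖x‖) • ξ - (1 / ‖x‖ ^ 3) • (⟪x, ξ⟫ • x))
      + (ε / ‖x‖ ^ 3) • (⟪x, ξ⟫ • x) = HH g a v x ξ + (ε / ‖x‖) • ξ
    have e1 : ε / ‖x‖ ^ 3 = ε * (1 / ‖x‖ ^ 3) := by ring
    have e2 : ε / ‖x‖ = ε * (1 / ‖x‖) := by ring
    rw [e1, e2]
    module
  rw [h2] at h1
  have h3 := (det_expand (HH g a v x) (HH_symm g a v hx) (fun ξ => (smooth_hh hP).psd hx ξ) hx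
    (HH_null g a v hx)).1 (ε / ‖x‖)
  rw [h3] at h1
  have hε' := hε.ne'
  have h4 : (fH V (HHe g a v ε x)).det
      = (ε / ‖x‖ * ((ε / ‖x‖) ^ 4 + c1 (HH g a v x) * (ε / ‖x‖) ^ 3
        + c2 (HH g a v x) * (ε / ‖x‖) ^ 2
        + c3 (HH g a v x) * (ε / ‖x‖) + c4 (HH g a v x))) / (ε * ‖x‖) := by
    rw [h1]
    field_simp
  rw [h4]
  field_simp

lemma hh_le (x : E5) : hh g x ≤ 102 / 100 * ‖x‖ := by
  by_cases hx : x = 0
  · rw [hx]; simp [hh]
  · unfold hh
    have := phi_le hP (yy_abs_le hx)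
    nlinarith [norm_nonneg x]

lemma le_hh (x : E5) : 98 / 100 * ‖x‖ ≤ hh g x := by
  by_cases hx : x = 0
  · rw [hx]; simp [hh]
  · unfold hh
    have := phi_pos hP (yy_abs_le hx)
    nlinarith [norm_nonneg x]

lemma body_bdd {z : E5} (hz : z ∈ body (hh g)) : ‖z‖ ≤ 102 / 100 := by
  have h1 := (hz z).trans (hh_le hP z)
  rw [real_inner_self_eq_norm_sq] at h1
  by_contra hcon
  push Not at hcon
  nlinarith

lemma body_compact : IsCompact (body (hh g)) := by
  apply Metric.isCompact_of_isClosed_isBounded (body_closed _)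
  rw [isBounded_iff_forall_norm_le]
  exact ⟨102 / 100, fun z hz => body_bdd hP hz⟩

lemma ball_sub_body : Metric.ball (0 : E5) (1 / 2) ⊆ body (hh g) := by
  intro z hz x
  rw [mem_ball_zero_iff] at hz
  have h1 := real_inner_le_norm z x
  have h2 := le_hh hP x
  nlinarith [norm_nonneg x, norm_nonneg z]

lemma body_interior : (interior (body (hh g))).Nonempty :=
  ⟨0, mem_interior.2 ⟨_, ball_sub_body hP, Metric.isOpen_ball, Metric.mem_ball_self (by norm_num)⟩⟩

lemma vol_cthick {ε : ℝ} (hε : 0 < ε) {u : E5} (hu1 : ‖u‖ = 1) {V : Submodule ℝ E5}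
    (hV : V = (ℝ ∙ u)ᗮ) :
    volume (Metric.cthickening ε (V.orthogonalProjectionOnto '' body (hh g)))
      = ∫⁻ w : V, ENNReal.ofReal |(fH V (HHe g a v ε ((w : E5) + u))).det| := by
  have huV : u ∈ Vᗮ := by
    rw [hV, Submodule.orthogonal_orthogonal]
    exact Submodule.mem_span_singleton_self u
  have huu : ⟪u, u⟫ = 1 := by rw [real_inner_self_eq_norm_sq, hu1]; norm_num
  have hne : ∀ w : V, (w : E5) + u ≠ 0 := by
    intro w h0
    have h1 : ⟪(w : E5) + u, u⟫ = 0 := by rw [h0, inner_zero_left]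
    have h2 : ⟪(w : E5), u⟫ = 0 := huV w w.2
    rw [inner_add_left, h2, huu] at h1
    norm_num at h1
  set P := V.orthogonalProjectionOnto with hPdef
  have hPin : ∀ (z : E5) (w : V), ⟪P z, w⟫ = ⟪z, (w : E5)⟫ := by
    intro z w
    rw [hPdef, Submodule.inner_orthogonalProjectionOnto_eq_of_mem_right]
  have hLc : IsCompact (P '' body (hh g)) := (body_compact hP).image P.continuous
  have hLconv : Convex ℝ (P '' body (hh g)) := (body_convex _).linear_image P.toLinearMap
  apply volume_shadow (smooth_hhe hP hε) V u huV hu1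
  · exact hLconv.cthickening ε
  · intro w
    have h1 : P (GG g a ((w : E5) + u)) ∈ P '' body (hh g) :=
      ⟨_, (smooth_hh hP).G_mem (hne w), rfl⟩
    apply Metric.mem_cthickening_of_dist_le _ _ _ _ h1
    rw [dist_eq_norm, ← map_sub]
    refine (Submodule.norm_orthogonalProjectionOnto_apply_le _ _).trans ?_
    have hn : ‖(w : E5) + u‖ ≠ 0 := norm_ne_zero_iff.2 (hne w)
    unfold GGe
    rw [add_sub_cancel_left, norm_smul, norm_smul, norm_div, norm_norm, norm_one, Real.norm_eq_abs,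
      abs_of_pos hε]
    apply le_of_eq
    field_simp
  · intro l hl w
    rw [hLc.cthickening_eq_biUnion_closedBall hε.le] at hl
    simp only [mem_iUnion, Metric.mem_closedBall, exists_prop] at hl
    obtain ⟨k, ⟨z, hz, rfl⟩, hd⟩ := hl
    have h1 : ⟪(l : E5), (w : E5)⟫ = ⟪P z, w⟫ + ⟪l - P z, w⟫ := by
      rw [← inner_add_left]; simp
    rw [h1, hPin]
    have h2 := hz (w : E5)
    have h3 : ⟪l - P z, w⟫ ≤ ε * ‖(w : E5)‖ := by
      refine (real_inner_le_norm _ _).trans ?_
      rw [dist_eq_norm] at hd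
      exact mul_le_mul_of_nonneg_right hd (norm_nonneg _)
    unfold hhe
    linarith

/-! ### the Steiner polynomial -/

/-- the five coefficient functions -/
noncomputable def qf (g a v : ℝ → ℝ) (j : ℕ) (x : E5) : ℝ :=
  match j with
  | 0 => 1 / ‖x‖ ^ 6
  | 1 => c1 (HH g a v x) / ‖x‖ ^ 5
  | 2 => c2 (HH g a v x) / ‖x‖ ^ 4
  | 3 => c3 (HH g a v x) / ‖x‖ ^ 3
  | _ => c4 (HH g a v x) / ‖x‖ ^ 2

lemma qf_nonneg {x : E5} (hx : x ≠ 0) (j : ℕ) : 0 ≤ qf g a v j x := by
  obtain ⟨_, h1, h2, h3, h4⟩ := det_expand (HH g a v x) (HH_symm g a v hx)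
    (fun ξ => (smooth_hh hP).psd hx ξ) hx (HH_null g a v hx)
  unfold qf
  split <;> positivity

omit hP in
lemma tr1_cont : Continuous tr1 := by unfold tr1; fun_prop
omit hP in
lemma tr2_cont : Continuous tr2 := by unfold tr2; fun_prop
omit hP in
lemma tr3_cont : Continuous tr3 := by unfold tr3; fun_prop
omit hP in
lemma tr4_cont : Continuous tr4 := by unfold tr4; fun_prop

lemma qf_meas {V : Submodule ℝ E5} {u : E5} (hne : ∀ w : V, (w : E5) + u ≠ 0) (j : ℕ) :
    Measurable fun w : V => qf g a v j ((w : E5) + u) := by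
  have hH : Measurable fun w : V => HH g a v ((w : E5) + u) := by
    have h1 : (fun w : V => HH g a v ((w : E5) + u))
        = fun w : V => fderiv ℝ (GG g a) ((w : E5) + u) := by
      ext1 w
      exact ((hasFDerivAt_GG hP (hne w)).fderiv).symm
    rw [h1]
    exact (measurable_fderiv ℝ (GG g a)).comp
      (by fun_prop : Continuous fun w : V => (w : E5) + u).measurable
  have hn : Measurable fun w : V => ‖(w : E5) + u‖ :=
    (by fun_prop : Continuous fun w : V => ‖(w : E5) + u‖).measurable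
  have m1 := tr1_cont.measurable.comp hH
  have m2 := tr2_cont.measurable.comp hH
  have m3 := tr3_cont.measurable.comp hH
  have m4 := tr4_cont.measurable.comp hH
  have k1 : Measurable fun w : V => c1 (HH g a v ((w : E5) + u)) := m1
  have k2 : Measurable fun w : V => c2 (HH g a v ((w : E5) + u)) :=
    ((m1.pow_const 2).sub m2).div_const 2
  have k3 : Measurable fun w : V => c3 (HH g a v ((w : E5) + u)) :=
    ((((m1.pow_const 3).sub ((m1.const_mul 3).mul m2))).add (m3.const_mul 2)).div_const 6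
  have k4 : Measurable fun w : V => c4 (HH g a v ((w : E5) + u)) :=
    (((((m1.pow_const 4).sub (((m1.pow_const 2).const_mul 6).mul m2)).add
      ((m2.pow_const 2).const_mul 3)).add ((m1.const_mul 8).mul m3)).sub
      (m4.const_mul 6)).div_const 24
  unfold qf
  split
  · exact (measurable_const).div (hn.pow_const 6)
  · exact k1.div (hn.pow_const 5)
  · exact k2.div (hn.pow_const 4)
  · exact k3.div (hn.pow_const 3)
  · exact k4.div (hn.pow_const 2)

end

end Pool.Agent.Lib_MP_17e2c6_gt
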