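import Pool.Agent.Lib_MP_17e2c6_gt.Cubic
import Pool.Agent.Lib_MP_17e2c6_gt.Profile

open scoped RealInnerProductSpace
open Set

namespace Pool.Agent.Lib_MP_17e2c6_gt

/-! ### basic derivatives -/

lemma hasFDerivAt_norm' {x : E5} (hx : x ≠ 0) :
    HasFDerivAt (fun x : E5 => ‖x‖) ((1 / ‖x‖) • innerSL ℝ x) x := by
  have hn : ‖x‖ ^ 2 ≠ 0 := by positivity
  have h := (hasStrictFDerivAt_norm_sq x).hasFDerivAt.sqrt hn
  have e : (fun x : E5 => √(‖x‖ ^ 2)) = fun x => ‖x‖ := by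
    ext x; exact Real.sqrt_sq (norm_nonneg x)
  rw [e] at h
  refine h.congr_fderiv ?_
  rw [Real.sqrt_sq (norm_nonneg x)]
  ext v
  simp
  field_simp

/-- the invariant `y = F / r^3` -/
noncomputable def yy (x : E5) : ℝ := F3 x / ‖x‖ ^ 3

/-- `r * grad y` -/
noncomputable def Yv (x : E5) : E5 :=
  (3 / ‖x‖ ^ 2) • cm x x - (3 * F3 x / ‖x‖ ^ 4) • x

lemma inner_cm_self (x : E5) : ⟪cm x x, x⟫ = F3 x := rfl

lemma inner_cm_cm (x : E5) : ⟪cm x x, cm x x⟫ = ‖x‖ ^ 4 := by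
  rw [cm_norm]; ring

lemma hasFDerivAt_pow_norm {x : E5} (hx : x ≠ 0) (n : ℕ) :
    HasFDerivAt (fun x : E5 => ‖x‖ ^ n) (((n : ℝ) * ‖x‖ ^ (n - 1) * (1 / ‖x‖)) • innerSL ℝ x) x := by
  have h := (hasFDerivAt_norm' hx).pow n
  refine h.congr_fderiv ?_
  ext v
  simp
  ring

lemma hasFDerivAt_inv_pow_norm {x : E5} (hx : x ≠ 0) (n : ℕ) :
    HasFDerivAt (fun x : E5 => (‖x‖ ^ (n + 1))⁻¹)
      ((-((n : ℝ) + 1) / ‖x‖ ^ (n + 3)) • innerSL ℝ x) x := by
  have hn : ‖x‖ ≠ 0 := norm_ne_zero_iff.2 hx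
  have h := (hasDerivAt_inv (pow_ne_zero (n + 1) hn)).comp_hasFDerivAt x
    (hasFDerivAt_pow_norm hx (n + 1))
  refine h.congr_fderiv ?_
  ext v
  simp
  field_simp
  ring_nf

lemma hasFDerivAt_yy {x : E5} (hx : x ≠ 0) :
    HasFDerivAt yy ((1 / ‖x‖) • innerSL ℝ (Yv x)) x := by
  have hn : ‖x‖ ≠ 0 := norm_ne_zero_iff.2 hx
  have h3 : ‖x‖ ^ 3 ≠ 0 := pow_ne_zero 3 hn
  have h := (hasFDerivAt_F3 x).mul (hasFDerivAt_inv_pow_norm hx 2)
  refine h.congr_fderiv ?_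
  ext v : 1
  simp only [Yv, smul_apply, innerSL_apply_apply, smul_eq_mul,
    inner_sub_left, inner_smul_left, sub_apply]
  simp
  field_simp
  ring

lemma Yv_sq {x : E5} (hx : x ≠ 0) : ⟪Yv x, Yv x⟫ = 9 * (1 - yy x ^ 2) := by
  have hn : ‖x‖ ≠ 0 := norm_ne_zero_iff.2 hx
  unfold Yv yy
  simp only [inner_sub_left, inner_sub_right, inner_smul_left, inner_smul_right]
  rw [inner_cm_cm, inner_cm_self, real_inner_comm (cm x x) x, inner_cm_self,
    real_inner_self_eq_norm_sq]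
  simp
  field_simp
  ring

lemma yy_abs_le {x : E5} (hx : x ≠ 0) : |yy x| ≤ 1 := by
  have h := Yv_sq hx
  have h2 : 0 ≤ ⟪Yv x, Yv x⟫ := real_inner_self_nonneg
  rw [← sq_le_one_iff_abs_le_one]
  linarith

lemma Yv_eq_zero {x : E5} (hx : x ≠ 0) (h : ¬ |yy x| < 1) : Yv x = 0 := by
  have h1 := Yv_sq hx
  have h2 : |yy x| = 1 := le_antisymm (yy_abs_le hx) (not_lt.1 h)
  have h3 : yy x ^ 2 = 1 := by
    rw [← sq_abs, h2]; norm_num
  rw [h3] at h1
  have : ⟪Yv x, Yv x⟫ = 0 := by rw [h1]; ring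
  exact inner_self_eq_zero.1 this

lemma yy_neg (x : E5) : yy (-x) = - yy x := by
  unfold yy; rw [F3_neg, norm_neg]; ring

/-- derivative of `Yv` -/
noncomputable def DY (x : E5) : E5 →L[ℝ] E5 :=
  (6 / ‖x‖ ^ 2) • cmL x - (6 / ‖x‖ ^ 4) • (innerSL ℝ x).smulRight (cm x x)
    - (9 / ‖x‖ ^ 4) • (innerSL ℝ (cm x x)).smulRight x
    - (3 * F3 x / ‖x‖ ^ 4) • ContinuousLinearMap.id ℝ E5
    + (12 * F3 x / ‖x‖ ^ 6) • (innerSL ℝ x).smulRight x

lemma hasFDerivAt_Yv {x : E5} (hx : x ≠ 0) : HasFDerivAt Yv (DY x) x := by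
  have hn : ‖x‖ ≠ 0 := norm_ne_zero_iff.2 hx
  have h2 : ‖x‖ ^ 2 ≠ 0 := pow_ne_zero 2 hn
  have h4 : ‖x‖ ^ 4 ≠ 0 := pow_ne_zero 4 hn
  have e1 := ((hasFDerivAt_inv_pow_norm hx 1).const_mul 3).smul
    (hasFDerivAt_sq x)
  have e2 := (((hasFDerivAt_F3 x).const_mul 3).mul (hasFDerivAt_inv_pow_norm hx 3)).smul
    (hasFDerivAt_id x)
  have h := e1.sub e2
  refine h.congr_fderiv ?_
  ext1 ξ
  apply ext_inner_right ℝ
  intro η
  simp only [DY, add_apply, sub_apply, smul_apply, ContinuousLinearMap.smulRight_apply,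
    innerSL_apply_apply, inner_add_left, inner_sub_left, inner_smul_left, cmL_apply,
    ContinuousLinearMap.id_apply, id, smul_eq_mul]
  simp
  field_simp
  ring

/-! ### the support function and its derivatives -/

noncomputable def phi (g : ℝ → ℝ) (y : ℝ) : ℝ := 1 + g y + eps * y
noncomputable def bb (a : ℝ → ℝ) (y : ℝ) : ℝ := a y + eps
noncomputable def sg (a v : ℝ → ℝ) (y : ℝ) : ℝ := v y + 2 * y * a y
open Classical in
noncomputable def psi (a v : ℝ → ℝ) (y : ℝ) : ℝ := if |y| < 1 then sg a v y / (1 - y ^ 2) else 0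

noncomputable def hh (g : ℝ → ℝ) (x : E5) : ℝ := ‖x‖ * phi g (yy x)

noncomputable def GG (g a : ℝ → ℝ) (x : E5) : E5 :=
  (phi g (yy x) / ‖x‖) • x + bb a (yy x) • Yv x

noncomputable def HH (g a v : ℝ → ℝ) (x : E5) : E5 →L[ℝ] E5 :=
  (phi g (yy x) / ‖x‖) • ContinuousLinearMap.id ℝ E5
    - (phi g (yy x) / ‖x‖ ^ 3) • (innerSL ℝ x).smulRight x
    + (bb a (yy x) / ‖x‖ ^ 2) • (innerSL ℝ (Yv x)).smulRight x
    + bb a (yy x) • DY x
    + (psi a v (yy x) / ‖x‖) • (innerSL ℝ (Yv x)).smulRight (Yv x)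

lemma hasFDerivAt_smul_of_zero {c : E5 → ℝ} {Y : E5 → E5} {Y' : E5 →L[ℝ] E5} {x : E5}
    (hc : ContinuousAt c x) (hY : HasFDerivAt Y Y' x) (h0 : Y x = 0) :
    HasFDerivAt (fun x => c x • Y x) (c x • Y') x := by
  rw [hasFDerivAt_iff_isLittleO] at hY ⊢
  have h1 : (fun z => c z • Y z - c x • Y x - (c x • Y') (z - x))
      = fun z => c z • (Y z - Y x - Y' (z - x)) + (c z - c x) • Y' (z - x) := by
    ext1 z
    rw [h0, smul_apply]
    module
  rw [h1]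
  apply Asymptotics.IsLittleO.add
  · have hb : (fun z => c z) =O[nhds x] fun _ => (1 : ℝ) := hc.isBigO_one ℝ
    have := hb.smul_isLittleO hY
    simpa using this
  · have hb : (fun z => c z - c x) =o[nhds x] fun _ => (1 : ℝ) := by
      rw [Asymptotics.isLittleO_one_iff]
      have := hc.tendsto.sub_const (c x)
      simpa using this
    have hb2 : (fun z => Y' (z - x)) =O[nhds x] fun z => z - x := Y'.isBigO_comp _ _
    have := hb.smul_isBigO hb2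
    simpa using this

section
variable {g a v : ℝ → ℝ} {m : ℝ} (hP : IsProfile g a v m)
include hP

lemma phi_deriv (y : ℝ) : HasDerivAt (phi g) (bb a y) y := by
  have h := ((hP.g_deriv y).const_add 1).add ((hasDerivAt_id y).const_mul eps)
  refine h.congr_deriv ?_
  unfold bb; ring

lemma bb_cont : Continuous (bb a) := hP.a_cont.add continuous_const

lemma bb_deriv {y : ℝ} (hy : |y| < 1) : HasDerivAt (bb a) (psi a v y) y := by
  have h := (hP.a_deriv y hy).add_const eps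
  refine h.congr_deriv ?_
  unfold psi sg
  rw [if_pos hy]

lemma hasFDerivAt_hh {x : E5} (hx : x ≠ 0) : HasFDerivAt (hh g) (innerSL ℝ (GG g a x)) x := by
  have hn : ‖x‖ ≠ 0 := norm_ne_zero_iff.2 hx
  have h := (hasFDerivAt_norm' hx).mul
    ((phi_deriv hP (yy x)).comp_hasFDerivAt x (hasFDerivAt_yy hx))
  refine h.congr_fderiv ?_
  ext1 ξ
  simp only [GG, add_apply, smul_apply, innerSL_apply_apply, inner_add_left, inner_smul_left,
    smul_eq_mul]
  simp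
  field_simp
  ring

lemma hasFDerivAt_GG {x : E5} (hx : x ≠ 0) : HasFDerivAt (GG g a) (HH g a v x) x := by
  have hn : ‖x‖ ≠ 0 := norm_ne_zero_iff.2 hx
  have hphi := (phi_deriv hP (yy x)).comp_hasFDerivAt x (hasFDerivAt_yy hx)
  have e1 := (hphi.mul (hasFDerivAt_inv_pow_norm hx 0)).smul (hasFDerivAt_id x)
  have e2 : HasFDerivAt (fun x => bb a (yy x) • Yv x)
      (bb a (yy x) • DY x + (psi a v (yy x) / ‖x‖) • (innerSL ℝ (Yv x)).smulRight (Yv x)) x := by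
    by_cases hy : |yy x| < 1
    · have h := ((bb_deriv hP hy).comp_hasFDerivAt x (hasFDerivAt_yy hx)).smul (hasFDerivAt_Yv hx)
      refine h.congr_fderiv ?_
      ext1 ξ
      apply ext_inner_right ℝ
      intro η
      simp only [add_apply, smul_apply, ContinuousLinearMap.smulRight_apply,
        innerSL_apply_apply, inner_add_left, inner_smul_left, smul_eq_mul]
      simp
      field_simp
    · have h0 := Yv_eq_zero hx hy
      have hc : ContinuousAt (fun x => bb a (yy x)) x :=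
        ((bb_cont hP).continuousAt).comp (hasFDerivAt_yy hx).continuousAt
      have h := hasFDerivAt_smul_of_zero hc (hasFDerivAt_Yv hx) h0
      refine h.congr_fderiv ?_
      rw [h0]
      simp
  have h := e1.add e2
  have e : (fun x => (phi g (yy x) * (‖x‖ ^ (0 + 1))⁻¹) • x + bb a (yy x) • Yv x)
      = GG g a := by
    ext1 z
    simp [GG, div_eq_mul_inv]
  rw [← e]
  refine h.congr_fderiv ?_
  ext1 ξ
  apply ext_inner_right ℝ
  intro η
  simp only [HH, add_apply, sub_apply, smul_apply, ContinuousLinearMap.smulRight_apply,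
    innerSL_apply_apply, inner_add_left, inner_sub_left, inner_smul_left,
    ContinuousLinearMap.id_apply, id, smul_eq_mul]
  simp
  field_simp
  ring

end

/-- explicit symmetric form of the Hessian -/
lemma HH_inner (g a v : ℝ → ℝ) {x : E5} (hx : x ≠ 0) (ξ η : E5) :
    ⟪HH g a v x ξ, η⟫ =
      ((phi g (yy x) - 3 * yy x * bb a (yy x)) / ‖x‖) * ⟪ξ, η⟫
      + ((9 * yy x * bb a (yy x) - phi g (yy x)) / ‖x‖ ^ 3) * (⟪x, ξ⟫ * ⟪x, η⟫)
      - (6 * bb a (yy x) / ‖x‖ ^ 4) * (⟪x, ξ⟫ * ⟪cm x x, η⟫ + ⟪cm x x, ξ⟫ * ⟪x, η⟫)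
      + (6 * bb a (yy x) / ‖x‖ ^ 2) * ⟪cm x ξ, η⟫
      + (psi a v (yy x) / ‖x‖) * (⟪Yv x, ξ⟫ * ⟪Yv x, η⟫) := by
  have hn : ‖x‖ ≠ 0 := norm_ne_zero_iff.2 hx
  have hF : F3 x = yy x * ‖x‖ ^ 3 := by unfold yy; field_simp
  have hY : ⟪Yv x, ξ⟫ = (3 / ‖x‖ ^ 2) * ⟪cm x x, ξ⟫ - (3 * yy x / ‖x‖) * ⟪x, ξ⟫ := by
    unfold Yv
    rw [inner_sub_left, inner_smul_left, inner_smul_left, hF]
    simp only [conj_trivial]
    field_simp
  simp only [HH, DY, add_apply, sub_apply, smul_apply, ContinuousLinearMap.smulRight_apply,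
    innerSL_apply_apply, inner_add_left, inner_sub_left, inner_smul_left, cmL_apply,
    ContinuousLinearMap.id_apply, id, smul_eq_mul]
  simp only [map_div₀, map_mul, map_pow, conj_trivial]
  set P := psi a v (yy x) / ‖x‖ * (⟪Yv x, ξ⟫ * ⟪Yv x, η⟫) with hPdef
  rw [hY, hF]
  have : ((3 / ‖x‖ ^ 2) * ⟪cm x x, ξ⟫ - (3 * yy x / ‖x‖) * ⟪x, ξ⟫) = ⟪Yv x, ξ⟫ := hY.symm
  field_simp
  ring

end Pool.Agent.Lib_MP_17e2c6_gt
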