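import Pool.Agent.Lib_MP_17e2c6_gt.Supp

open scoped RealInnerProductSpace
open Set

namespace Pool.Agent.Lib_MP_17e2c6_gt

lemma psi_mul {g a v : ℝ → ℝ} {m : ℝ} (hP : IsProfile g a v m) {y : ℝ} (hy : |y| ≤ 1) :
    psi a v y * (1 - y ^ 2) = sg a v y := by
  unfold psi
  split_ifs with h
  · have : 1 - y ^ 2 ≠ 0 := by
      have := (sq_lt_one_iff_abs_lt_one y).2 h
      linarith
    field_simp
  · have h1 : |y| = 1 := le_antisymm hy (not_lt.1 h)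
    have h2 := hP.end1
    rcases eq_or_eq_neg_of_abs_eq h1 with h3 | h3
    · rw [h3]; unfold sg; linarith
    · rw [h3]; unfold sg
      rw [hP.v_even, hP.a_odd]; linarith

lemma inner_x_Y {x : E5} (hx : x ≠ 0) : ⟪x, Yv x⟫ = 0 := by
  have hn : ‖x‖ ≠ 0 := norm_ne_zero_iff.2 hx
  unfold Yv
  rw [inner_sub_right, inner_smul_right, inner_smul_right, real_inner_comm, inner_cm_self,
    real_inner_self_eq_norm_sq]
  field_simp
  ring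

lemma F3_eq {x : E5} (hx : x ≠ 0) : F3 x = yy x * ‖x‖ ^ 3 := by
  have hn : ‖x‖ ≠ 0 := norm_ne_zero_iff.2 hx
  unfold yy; field_simp

lemma c_eq {x : E5} (hx : x ≠ 0) : cm x x = (‖x‖ ^ 2 / 3) • Yv x + (‖x‖ * yy x) • x := by
  have hn : ‖x‖ ≠ 0 := norm_ne_zero_iff.2 hx
  unfold Yv
  rw [F3_eq hx, smul_sub, smul_smul, smul_smul]
  have e1 : ‖x‖ ^ 2 / 3 * (3 / ‖x‖ ^ 2) = 1 := by field_simp
  have e2 : ‖x‖ ^ 2 / 3 * (3 * (yy x * ‖x‖ ^ 3) / ‖x‖ ^ 4) = ‖x‖ * yy x := by field_simp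
  rw [e1, e2]
  module

lemma inner_c_Y {x : E5} (hx : x ≠ 0) : ⟪cm x x, Yv x⟫ = 3 * ‖x‖ ^ 2 * (1 - yy x ^ 2) := by
  rw [c_eq hx, inner_add_left, inner_smul_left, inner_smul_left, Yv_sq hx, inner_x_Y hx]
  simp only [conj_trivial]
  ring

lemma inner_cmY_Y {x : E5} (hx : x ≠ 0) :
    ⟪cm x (Yv x), Yv x⟫ = -9 * yy x * ‖x‖ * (1 - yy x ^ 2) := by
  have hn : ‖x‖ ≠ 0 := norm_ne_zero_iff.2 hx
  have e : cm x (Yv x) = (3 : ℝ) • x - (3 * yy x / ‖x‖) • cm x x := by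
    conv_lhs => unfold Yv
    have h1 : cm x ((3 / ‖x‖ ^ 2) • cm x x - (3 * F3 x / ‖x‖ ^ 4) • x)
        = (3 / ‖x‖ ^ 2) • cm x (cm x x) - (3 * F3 x / ‖x‖ ^ 4) • cm x x := by
      rw [sub_eq_add_neg, cm_add_right, ← neg_smul, cm_smul_right, cm_smul_right, neg_smul,
        ← sub_eq_add_neg]
    rw [h1, cm_cub, smul_smul, F3_eq hx]
    congr 2
    · field_simp
    · field_simp
  rw [e, inner_sub_left, inner_smul_left, inner_smul_left, inner_x_Y hx, inner_c_Y hx]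
  simp only [conj_trivial]
  field_simp
  ring

lemma HH_vec (g a v : ℝ → ℝ) {x : E5} (hx : x ≠ 0) (ξ : E5) :
    HH g a v x ξ =
      ((phi g (yy x) - 3 * yy x * bb a (yy x)) / ‖x‖) • ξ
      + ((9 * yy x * bb a (yy x) - phi g (yy x)) / ‖x‖ ^ 3 * ⟪x, ξ⟫) • x
      - (6 * bb a (yy x) / ‖x‖ ^ 4) • (⟪x, ξ⟫ • cm x x + ⟪cm x x, ξ⟫ • x)
      + (6 * bb a (yy x) / ‖x‖ ^ 2) • cm x ξ
      + (psi a v (yy x) / ‖x‖ * ⟪Yv x, ξ⟫) • Yv x := by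
  apply ext_inner_right ℝ
  intro η
  rw [HH_inner g a v hx]
  simp only [inner_add_left, inner_sub_left, inner_smul_left, conj_trivial]
  ring

lemma HH_symm (g a v : ℝ → ℝ) {x : E5} (hx : x ≠ 0) (ξ η : E5) :
    ⟪HH g a v x ξ, η⟫ = ⟪ξ, HH g a v x η⟫ := by
  rw [real_inner_comm _ ξ, HH_inner g a v hx, HH_inner g a v hx]
  have h1 : ⟪cm x ξ, η⟫ = ⟪cm x η, ξ⟫ := by
    rw [cm_inner, real_inner_comm]
  rw [h1, real_inner_comm η ξ]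
  ring

lemma HH_null (g a v : ℝ → ℝ) {x : E5} (hx : x ≠ 0) : HH g a v x x = 0 := by
  have hn : ‖x‖ ≠ 0 := norm_ne_zero_iff.2 hx
  apply ext_inner_right ℝ
  intro η
  rw [HH_inner g a v hx, real_inner_self_eq_norm_sq, inner_cm_self, F3_eq hx,
    real_inner_comm x (Yv x), inner_x_Y hx, inner_zero_left]
  field_simp
  ring

lemma e5_orth (p q : E5) : ∑ i, ⟪p, e5 i⟫ * ⟪q, e5 i⟫ = ⟪p, q⟫ := by
  simp only [Fin.sum_univ_five, inner5, e5_apply]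
  simp

lemma e5_cm (x p q : E5) : ∑ i, ⟪p, e5 i⟫ * ⟪cm x (e5 i), q⟫ = ⟪cm x p, q⟫ := by
  have : ∀ i, ⟪cm x (e5 i), q⟫ = ⟪cm x q, e5 i⟫ := by
    intro i
    rw [cm_inner, real_inner_comm]
  simp only [this]
  rw [e5_orth, cm_inner]

lemma e5_one (i : Fin 5) : ⟪e5 i, e5 i⟫ = 1 := by
  rw [real_inner_self_eq_norm_sq]; simp [e5]

/-- trace of the Hessian -/
lemma HH_trace {g a v : ℝ → ℝ} {m : ℝ} (hP : IsProfile g a v m) {x : E5} (hx : x ≠ 0) :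
    ∑ i, ⟪HH g a v x (e5 i), e5 i⟫ =
      (4 * phi g (yy x) - 18 * yy x * bb a (yy x) + 9 * sg a v (yy x)) / ‖x‖ := by
  have hn : ‖x‖ ≠ 0 := norm_ne_zero_iff.2 hx
  rw [← psi_mul hP (yy_abs_le hx)]
  simp only [HH_inner g a v hx, e5_one]
  have hXX := e5_orth x x
  have hXC := e5_orth x (cm x x)
  have hYY := e5_orth (Yv x) (Yv x)
  have hT := cm_trace x
  simp only [real_inner_comm (cm x _) _] at hT
  rw [real_inner_self_eq_norm_sq] at hXX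
  rw [real_inner_comm, inner_cm_self, F3_eq hx] at hXC
  rw [Yv_sq hx] at hYY
  simp only [Fin.sum_univ_five] at *
  have e : (4 * phi g (yy x) - 18 * yy x * bb a (yy x) + 9 * (psi a v (yy x) * (1 - yy x ^ 2)))
      / ‖x‖ = ((phi g (yy x) - 3 * yy x * bb a (yy x)) / ‖x‖) * 5
      + ((9 * yy x * bb a (yy x) - phi g (yy x)) / ‖x‖ ^ 3) * ‖x‖ ^ 2
      - (6 * bb a (yy x) / ‖x‖ ^ 4) * (2 * (yy x * ‖x‖ ^ 3))
      + (6 * bb a (yy x) / ‖x‖ ^ 2) * 0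
      + (psi a v (yy x) / ‖x‖) * (9 * (1 - yy x ^ 2)) := by
    field_simp
    ring
  rw [e]
  linear_combination ((9 * yy x * bb a (yy x) - phi g (yy x)) / ‖x‖ ^ 3) * hXX
    - (6 * bb a (yy x) / ‖x‖ ^ 4) * 2 * hXC + (6 * bb a (yy x) / ‖x‖ ^ 2) * hT
    + (psi a v (yy x) / ‖x‖) * hYY

lemma HH_trace2 (g a v : ℝ → ℝ) {x : E5} (hx : x ≠ 0) {A B C G D : ℝ}
    (hA : A = (phi g (yy x) - 3 * yy x * bb a (yy x)) / ‖x‖)
    (hB : B = (9 * yy x * bb a (yy x) - phi g (yy x)) / ‖x‖ ^ 3)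
    (hC : C = 6 * bb a (yy x) / ‖x‖ ^ 4)
    (hG : G = 6 * bb a (yy x) / ‖x‖ ^ 2)
    (hD : D = psi a v (yy x) / ‖x‖) :
    ∑ i, ⟪HH g a v x (e5 i), HH g a v x (e5 i)⟫ =
      5 * A ^ 2 + B ^ 2 * ‖x‖ ^ 4 + C ^ 2 * (2 * ‖x‖ ^ 6 + 2 * F3 x ^ 2)
      + G ^ 2 * (7 / 2 * ‖x‖ ^ 2) + D ^ 2 * (9 * (1 - yy x ^ 2)) ^ 2
      + 2 * A * B * ‖x‖ ^ 2 - 2 * A * C * (2 * F3 x) + 2 * A * D * (9 * (1 - yy x ^ 2))
      - 2 * B * C * (2 * ‖x‖ ^ 2 * F3 x) + 2 * B * G * F3 x - 2 * C * G * (2 * ‖x‖ ^ 4)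
      + 2 * G * D * (-9 * yy x * ‖x‖ * (1 - yy x ^ 2)) := by
  have hXX := e5_orth x x
  have hXC := e5_orth x (cm x x)
  have hCC := e5_orth (cm x x) (cm x x)
  have hXY := e5_orth x (Yv x)
  have hCY := e5_orth (cm x x) (Yv x)
  have hYY := e5_orth (Yv x) (Yv x)
  have hT := cm_trace x
  have hFr := cm_frob x
  have k1 := e5_cm x x x
  have k2 := e5_cm x x (cm x x)
  have k3 := e5_cm x (cm x x) x
  have k4 := e5_cm x (Yv x) (Yv x)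
  simp only [real_inner_comm (cm x _) (e5 _)] at hT
  have b1 : ⟪x, x⟫ = ‖x‖ ^ 2 := real_inner_self_eq_norm_sq x
  have b2 : ⟪x, cm x x⟫ = F3 x := by rw [real_inner_comm]; rfl
  have b3 : ⟪cm x x, cm x x⟫ = ‖x‖ ^ 4 := inner_cm_cm x
  have b4 := inner_x_Y hx
  have b5 := inner_c_Y hx
  have b6 := Yv_sq hx
  have b7 := inner_cmY_Y hx
  have b8 : ⟪cm x x, x⟫ = F3 x := rfl
  have b9 : ⟪cm x (cm x x), x⟫ = ‖x‖ ^ 4 := by
    rw [cm_cub, inner_smul_left, b1]; simp only [conj_trivial]; ring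
  rw [b1] at hXX
  rw [b2] at hXC
  rw [b3] at hCC
  rw [b4] at hXY
  rw [b5] at hCY
  rw [b6] at hYY
  rw [b8] at k1
  rw [b3] at k2
  rw [b9] at k3
  rw [b7] at k4
  simp only [HH_vec g a v hx, ← hA, ← hB, ← hC, ← hG, ← hD]
  simp only [inner_add_left, inner_sub_left, inner_smul_left, inner_add_right, inner_sub_right,
    inner_smul_right, conj_trivial, e5_one, b1, b2, b3, b4, b5, b6, b8,
    real_inner_comm x (Yv x), real_inner_comm (cm x x) (Yv x),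
    real_inner_comm x (e5 _), real_inner_comm (cm x x) (e5 _), real_inner_comm (Yv x) (e5 _),
    real_inner_comm (cm x (e5 _)) (e5 _),
    real_inner_comm (cm x (e5 _)) x, real_inner_comm (cm x (e5 _)) (cm x x),
    real_inner_comm (cm x (e5 _)) (Yv x)]
  simp only [Fin.sum_univ_five] at *
  linear_combination (B ^ 2 * ‖x‖ ^ 2 + C ^ 2 * ‖x‖ ^ 4 + 2 * A * B - 2 * B * C * F3 x) * hXX
    + (2 * C ^ 2 * F3 x - 4 * A * C - 2 * B * C * ‖x‖ ^ 2) * hXC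
    + (C ^ 2 * ‖x‖ ^ 2) * hCC
    + (D ^ 2 * (9 * (1 - yy x ^ 2)) + 2 * A * D) * hYY
    - (2 * C * D * (3 * ‖x‖ ^ 2 * (1 - yy x ^ 2))) * hXY
    + G ^ 2 * hFr + 2 * A * G * hT + 2 * B * G * k1 - 2 * C * G * k2 - 2 * C * G * k3
    + 2 * G * D * k4

/-- first power sum of the Hessian -/
noncomputable def P1 (g a v : ℝ → ℝ) (x : E5) : ℝ := ∑ i, ⟪HH g a v x (e5 i), e5 i⟫
/-- second power sum of the Hessian -/
noncomputable def P2 (g a v : ℝ → ℝ) (x : E5) : ℝ :=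
  ∑ i, ⟪HH g a v x (e5 i), HH g a v x (e5 i)⟫

/-- the quadratic expression of the profile equation -/
noncomputable def qq (g a v : ℝ → ℝ) (y : ℝ) : ℝ :=
  2 * phi g y ^ 2 - 18 * y * phi g y * bb a y + (36 * y ^ 2 - 9) * bb a y ^ 2
    + 9 * phi g y * sg a v y - 27 * y * bb a y * sg a v y

lemma e2_formula {g a v : ℝ → ℝ} {m : ℝ} (hP : IsProfile g a v m) {x : E5} (hx : x ≠ 0) :
    (P1 g a v x ^ 2 - P2 g a v x) / 2 = 3 * qq g a v (yy x) / ‖x‖ ^ 2 := by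
  have hn : ‖x‖ ≠ 0 := norm_ne_zero_iff.2 hx
  unfold P1 P2 qq
  rw [HH_trace hP hx, HH_trace2 g a v hx rfl rfl rfl rfl rfl, F3_eq hx,
    ← psi_mul hP (yy_abs_le hx)]
  field_simp
  ring

lemma qq_sum {g a v : ℝ → ℝ} {m : ℝ} (hP : IsProfile g a v m) {y : ℝ} (hy : |y| ≤ 1) :
    qq g a v y + qq g a v (-y) = 2 * (2 + m) := by
  have h := hP.ode y hy
  unfold qq phi bb sg
  rw [hP.g_even, hP.a_odd, hP.v_even]
  linear_combination 2 * h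

lemma e2_sum {g a v : ℝ → ℝ} {m : ℝ} (hP : IsProfile g a v m) {x : E5} (hx : x ≠ 0) :
    (P1 g a v x ^ 2 - P2 g a v x) / 2 + (P1 g a v (-x) ^ 2 - P2 g a v (-x)) / 2
      = 6 * (2 + m) / ‖x‖ ^ 2 := by
  rw [e2_formula hP hx, e2_formula hP (neg_ne_zero.2 hx), yy_neg, norm_neg]
  have h := qq_sum hP (yy_abs_le hx)
  rw [← add_div, ← mul_add, h]
  ring

/-! ### positivity -/

lemma cm_bound (x ξ : E5) : ‖cm x ξ‖ ≤ 2 * ‖x‖ * ‖ξ‖ := by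
  have hdec : ξ = ∑ i, ⟪ξ, e5 i⟫ • e5 i := by
    apply ext5 <;> simp [Fin.sum_univ_five, inner5, e5_apply]
  have h1 : cm x ξ = ∑ i, ⟪ξ, e5 i⟫ • cm x (e5 i) := by
    conv_lhs => rw [hdec]
    have : ∀ z : E5, cm x z = cmL x z := fun z => rfl
    simp only [this, map_sum, map_smul]
  have h2 : ‖cm x ξ‖ ≤ ∑ i, |⟪ξ, e5 i⟫| * ‖cm x (e5 i)‖ := by
    rw [h1]
    refine (norm_sum_le _ _).trans (le_of_eq ?_)
    simp [norm_smul]
  have h3 := Finset.sum_mul_sq_le_sq_mul_sq Finset.univ (fun i => |⟪ξ, e5 i⟫|)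
    (fun i => ‖cm x (e5 i)‖)
  have h4 : ∑ i, |⟪ξ, e5 i⟫| ^ 2 = ‖ξ‖ ^ 2 := by
    have := e5_orth ξ ξ
    rw [real_inner_self_eq_norm_sq] at this
    rw [← this]
    apply Finset.sum_congr rfl
    intro i _
    rw [sq_abs, sq]
  have h5 : ∑ i, ‖cm x (e5 i)‖ ^ 2 = 7 / 2 * ‖x‖ ^ 2 := by
    rw [← cm_frob x]
    apply Finset.sum_congr rfl
    intro i _
    rw [real_inner_self_eq_norm_sq]
  rw [h4, h5] at h3
  have h6 : 0 ≤ ∑ i, |⟪ξ, e5 i⟫| * ‖cm x (e5 i)‖ := by positivity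
  have h7 : (∑ i, |⟪ξ, e5 i⟫| * ‖cm x (e5 i)‖) ^ 2 ≤ (2 * ‖x‖ * ‖ξ‖) ^ 2 := by
    refine h3.trans ?_
    have : 0 ≤ ‖ξ‖ ^ 2 * ‖x‖ ^ 2 := by positivity
    nlinarith
  exact h2.trans (abs_le_of_sq_le_sq' h7 (by positivity)).2

lemma HH_pos_perp {g a v : ℝ → ℝ} {m : ℝ} (hP : IsProfile g a v m) {x : E5} (hx : x ≠ 0)
    {ξ : E5} (h : ⟪x, ξ⟫ = 0) : (1 / 2) * (‖ξ‖ ^ 2 / ‖x‖) ≤ ⟪HH g a v x ξ, ξ⟫ := by
  have hn : 0 < ‖x‖ := norm_pos_iff.2 hx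
  have hy := yy_abs_le hx
  rw [HH_inner g a v hx, h]
  have hg := hP.g_le _ hy
  have ha := hP.a_le _ hy
  have hv := hP.v_le _ hy
  have he : eps = 1 / 100 := rfl
  have hcm : |⟪cm x ξ, ξ⟫| ≤ 2 * ‖x‖ * ‖ξ‖ ^ 2 := by
    refine (abs_real_inner_le_norm _ _).trans ?_
    have := cm_bound x ξ
    nlinarith [norm_nonneg ξ]
  have hY : |psi a v (yy x) * (⟪Yv x, ξ⟫ * ⟪Yv x, ξ⟫)| ≤ 9 * |sg a v (yy x)| * ‖ξ‖ ^ 2 := by
    have h1 := real_inner_mul_inner_self_le (Yv x) ξ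
    rw [Yv_sq hx, real_inner_self_eq_norm_sq] at h1
    rw [← psi_mul hP hy, abs_mul, abs_mul, abs_mul_abs_self, abs_mul,
      abs_of_nonneg (show 0 ≤ 1 - yy x ^ 2 by
        have := Yv_sq hx
        have h2 : 0 ≤ ⟪Yv x, Yv x⟫ := real_inner_self_nonneg
        linarith)]
    have h3 := mul_le_mul_of_nonneg_left h1 (abs_nonneg (psi a v (yy x)))
    linarith
  have hs : |sg a v (yy x)| ≤ 21 / 4 * eps ^ 2 := by
    unfold sg
    have h1 : |2 * yy x * a (yy x)| ≤ 3 * eps ^ 2 := by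
      rw [abs_mul, abs_mul]
      have : |(2 : ℝ)| = 2 := by norm_num
      rw [this]
      nlinarith [abs_nonneg (yy x), abs_nonneg (a (yy x))]
    calc _ ≤ |v (yy x)| + |2 * yy x * a (yy x)| := abs_add_le _ _
      _ ≤ _ := by linarith
  have hb : |bb a (yy x)| ≤ 11 / 1000 := by
    unfold bb
    calc _ ≤ |a (yy x)| + |eps| := abs_add_le _ _
      _ ≤ 11 / 1000 := by
        have : |eps| = 1 / 100 := by rw [he]; norm_num
        rw [this]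
        rw [he] at ha
        linarith
  have hph : 98 / 100 ≤ phi g (yy x) := by
    unfold phi
    have h1 : |eps * yy x| ≤ 1 / 100 := by
      rw [abs_mul]
      have : |eps| = 1 / 100 := by rw [he]; norm_num
      rw [this]; linarith
    rw [he] at hg
    rw [abs_le] at hg h1
    linarith [hg.1, h1.1]
  have hyb : |yy x * bb a (yy x)| ≤ 11 / 1000 := by
    rw [abs_mul]
    nlinarith [abs_nonneg (yy x), abs_nonneg (bb a (yy x))]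
  set q := ‖ξ‖ ^ 2 with hq
  have hq0 : 0 ≤ q := by positivity
  rw [real_inner_self_eq_norm_sq, ← hq]
  -- clear denominators
  have key : (1 / 2) * q ≤ (phi g (yy x) - 3 * yy x * bb a (yy x)) * q
      + (6 * bb a (yy x) / ‖x‖) * ⟪cm x ξ, ξ⟫
      + psi a v (yy x) * (⟪Yv x, ξ⟫ * ⟪Yv x, ξ⟫) := by
    have t1 : |(6 * bb a (yy x) / ‖x‖) * ⟪cm x ξ, ξ⟫| ≤ 132 / 1000 * q := by
      rw [abs_mul, abs_div, abs_mul, abs_of_pos hn]
      have : |(6 : ℝ)| = 6 := by norm_num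
      rw [this]
      calc 6 * |bb a (yy x)| / ‖x‖ * |⟪cm x ξ, ξ⟫|
          ≤ 6 * (11 / 1000) / ‖x‖ * (2 * ‖x‖ * q) := by
            apply mul_le_mul _ hcm (abs_nonneg _) (by positivity)
            gcongr
        _ = 132 / 1000 * q := by field_simp; ring
    have t2 : |psi a v (yy x) * (⟪Yv x, ξ⟫ * ⟪Yv x, ξ⟫)| ≤ 1 / 100 * q := by
      refine hY.trans ?_
      rw [he] at hs
      nlinarith
    have t3 : |(3 * yy x * bb a (yy x)) * q| ≤ 33 / 1000 * q := by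
      rw [abs_mul, abs_of_nonneg hq0]
      apply mul_le_mul_of_nonneg_right _ hq0
      have : 3 * yy x * bb a (yy x) = 3 * (yy x * bb a (yy x)) := by ring
      rw [this, abs_mul]
      have : |(3 : ℝ)| = 3 := by norm_num
      rw [this]; linarith
    have t4 : 98 / 100 * q ≤ phi g (yy x) * q := mul_le_mul_of_nonneg_right hph hq0
    rw [abs_le] at t1 t2 t3
    linarith [t1.1, t2.1, t3.2]
  have e : (phi g (yy x) - 3 * yy x * bb a (yy x)) / ‖x‖ * q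
      + (9 * yy x * bb a (yy x) - phi g (yy x)) / ‖x‖ ^ 3 * (0 * 0)
      - 6 * bb a (yy x) / ‖x‖ ^ 4 * (0 * ⟪cm x x, ξ⟫ + ⟪cm x x, ξ⟫ * 0)
      + 6 * bb a (yy x) / ‖x‖ ^ 2 * ⟪cm x ξ, ξ⟫
      + psi a v (yy x) / ‖x‖ * (⟪Yv x, ξ⟫ * ⟪Yv x, ξ⟫)
      = ((phi g (yy x) - 3 * yy x * bb a (yy x)) * q
      + (6 * bb a (yy x) / ‖x‖) * ⟪cm x ξ, ξ⟫
      + psi a v (yy x) * (⟪Yv x, ξ⟫ * ⟪Yv x, ξ⟫)) / ‖x‖ := by
    field_simp
    ring
  rw [e]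
  have := div_le_div_of_nonneg_right key hn.le
  calc _ = (1 / 2 * q) / ‖x‖ := by ring
    _ ≤ _ := this

end Pool.Agent.Lib_MP_17e2c6_gt
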